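import Pool.Agent.H90Cyc.Num

/-!
The finite checks, by the kernel.
-/

namespace Pool.Agent.H90Cyc

open Finset

theorem chkF_ok : ∀ d ∈ Icc 1 7, ∀ k ∈ Icc 2 6, ∀ s ∈ range (min (k - 1) d),
    chkF d k s = true := by
  decide +kernel

theorem chkI_ok : ∀ d ∈ Icc 1 7, ∀ e ∈ Icc 1 7, ∀ c ∈ Icc 2 7, 6 - e ≤ d - 1 →
    chkI d e c = true := by
  decide +kernel

theorem chkT_ok : ∀ d ∈ Icc 1 7,
    domE (HL.getD d []) (700000 * 100) (psN d 7 * 100) = true := by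
  decide +kernel

theorem hchk_ok : ∀ d ∈ Icc 1 7,
    hchk (100000000 ^ (d - 1)) d (HL.getD d []) 0 1 = true := by
  decide +kernel

theorem h7_ok : ∀ p ∈ HL.getD 7 [], 8 * 100000000 ≤ 7 * p.2 := by decide +kernel

theorem q7_le_f6 : ∀ c ∈ Icc 2 7, psN 7 c ≤ phN 6 c := by decide +kernel

theorem codeL_mem : ∀ n ∈ Icc 2 7, (false, n) ∈ codeL ∧ (n = 2 ∨ (true, n) ∈ codeL) := by
  decide +kernel

theorem ph_cap : ∀ i ≤ 6, ∀ j ≤ 6, 1 ≤ i → 1 ≤ j → phT i j ≤ 1381700 := by decide +kernel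

theorem ps_cap : ∀ i ≤ 7, ∀ j ≤ 7, 1 ≤ i → 2 ≤ j → psT i j ≤ 1381700 := by decide +kernel

end Pool.Agent.H90Cyc
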