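import Mathlib

/-!
The number of cycles of a graph, and its maximum over the graphs with `m` edges.
-/

namespace Pool.Agent.H90Cyc

/-- The set of the edge sets of all cycles of `G`. -/
def cycleSet {V : Type*} (G : SimpleGraph V) : Set (Set (Sym2 V)) :=
  {C | ∃ (v : V) (p : G.Walk v v), p.IsCycle ∧ C = {e | e ∈ p.edges}}

/-- The number of cycles of `G`, two cycles being distinct when their edge sets differ. -/
noncomputable def numCycles {V : Type*} (G : SimpleGraph V) : ℕ := (cycleSet G).ncard

/-- The largest number of cycles of a finite simple graph with exactly `m` edges. -/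
noncomputable def maxCycles (m : ℕ) : ℕ :=
  sSup {c : ℕ | ∃ (n : ℕ) (G : SimpleGraph (Fin n)), G.edgeSet.ncard = m ∧ numCycles G = c}

end Pool.Agent.H90Cyc
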