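import Pool.Agent.H90Cyc.Defs
import Pool.Agent.H90Cyc.CycDefs

/-!
The number of cycles (as edge sets) is at most the sum of the path counts over all darts.
-/

namespace Pool.Agent.H90Cyc

open Finset

variable {V : Type*} [DecidableEq V] [Fintype V] (G : SimpleGraph V) [DecidableRel G.Adj]

/-- edge set described by a vertex and a list -/
def edgeSetOf (x : V × List V) : Set (Sym2 V) :=
  {e | e ∈ List.zipWith (fun a b => s(a, b)) (x.1 :: x.2) x.2}

theorem cycleSet_subset : cycleSet G ⊆
    edgeSetOf '' (((univ : Finset V).biUnion (fun v => (nb G univ v).biUnion (fun w =>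
      (pl G v (Fintype.card V) univ w).image (fun l => (v, l)))) : Finset (V × List V)) :
        Set (V × List V)) := by
  rintro C ⟨v, p, hp, rfl⟩
  cases p with
  | nil => exact absurd hp (by simp)
  | @cons _ w _ h q =>
    rw [SimpleGraph.Walk.cons_isCycle_iff] at hp
    refine ⟨(v, q.support), ?_, ?_⟩
    · rw [Finset.mem_coe, Finset.mem_biUnion]
      refine ⟨v, Finset.mem_univ _, ?_⟩
      rw [Finset.mem_biUnion]
      refine ⟨w, (mem_nb G).2 ⟨Finset.mem_univ _, h⟩, ?_⟩
      rw [Finset.mem_image]
      exact ⟨q.support, support_mem_pl G v q hp.1 univ _ (fun _ _ => Finset.mem_univ _)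
        (by simp), rfl⟩
    · ext e
      simp only [edgeSetOf, Set.mem_setOf_eq]
      rw [SimpleGraph.Walk.edges_eq_zipWith_support]
      simp [SimpleGraph.Walk.support_cons]

theorem numCycles_le_sum : numCycles G ≤
    ∑ v : V, ∑ w ∈ nb G univ v, cnt G v (Fintype.card V) univ w := by
  unfold numCycles
  refine le_trans (Set.ncard_le_ncard (cycleSet_subset G) (Set.Finite.image _ (Finset.finite_toSet _))) ?_
  refine le_trans (Set.ncard_image_le (Finset.finite_toSet _)) ?_
  rw [Set.ncard_coe_finset]
  refine le_trans Finset.card_biUnion_le (Finset.sum_le_sum fun v _ => ?_)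
  refine le_trans Finset.card_biUnion_le (Finset.sum_le_sum fun w _ => ?_)
  exact le_trans Finset.card_image_le (card_pl_le G _ _ _ _)

theorem numCycles_le_of_bound (B : ℝ) (hB : ∀ v w : V, G.Adj v w →
    (cnt G v (Fintype.card V) univ w : ℝ) ≤ B) :
    (numCycles G : ℝ) ≤ 2 * G.edgeFinset.card * B := by
  calc (numCycles G : ℝ) ≤ ((∑ v : V, ∑ w ∈ nb G univ v, cnt G v (Fintype.card V) univ w : ℕ) : ℝ) := by
        exact_mod_cast numCycles_le_sum G
    _ = ∑ v : V, ∑ w ∈ nb G univ v, (cnt G v (Fintype.card V) univ w : ℝ) := by push_cast; rfl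
    _ ≤ ∑ v : V, ∑ w ∈ nb G univ v, B := by
        refine Finset.sum_le_sum fun v _ => Finset.sum_le_sum fun w hw => hB v w ((mem_nb G).1 hw).2
    _ = ∑ v : V, (G.degree v : ℝ) * B := by
        refine Finset.sum_congr rfl fun v _ => ?_
        rw [Finset.sum_const, nsmul_eq_mul]
        congr 2
        rw [SimpleGraph.degree]
        congr 1
        ext y
        simp [nb]
    _ = 2 * G.edgeFinset.card * B := by
        rw [← Finset.sum_mul]
        congr 1
        exact_mod_cast G.sum_degrees_eq_twice_card_edges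

end Pool.Agent.H90Cyc
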