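import Mathlib

/-!
Counting paths inside a finite set of vertices of a simple graph.
-/

namespace Pool.Agent.H90Cyc

open Finset

variable {V : Type*} [DecidableEq V] (G : SimpleGraph V) [DecidableRel G.Adj]

/-- The neighbours of `x` inside `S`. -/
def nb (S : Finset V) (x : V) : Finset V := S.filter (fun y => G.Adj x y)

/-- The number of paths from `v` to `t` inside `S` (with fuel). -/
def cnt (t : V) : ℕ → Finset V → V → ℕ
  | 0, _, _ => 0
  | n + 1, S, v => if v = t then 1 else ∑ a ∈ nb G (S.erase v) v, cnt t n (S.erase v) a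

/-- The paths from `v` to `t` inside `S`, as lists of vertices. -/
def pl (t : V) : ℕ → Finset V → V → Finset (List V)
  | 0, _, _ => ∅
  | n + 1, S, v => if v = t then {[t]} else
      (nb G (S.erase v) v).biUnion (fun a => (pl t n (S.erase v) a).image (fun l => v :: l))

omit [DecidableEq V] in
theorem mem_nb {S : Finset V} {x y : V} : y ∈ nb G S x ↔ y ∈ S ∧ G.Adj x y := by
  simp [nb]

theorem card_pl_le (t : V) (n : ℕ) : ∀ (S : Finset V) (v : V),
    (pl G t n S v).card ≤ cnt G t n S v := by
  induction n with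
  | zero => intro S v; simp [pl, cnt]
  | succ n ih =>
    intro S v
    rw [pl, cnt]
    split_ifs with h
    · simp
    · refine le_trans Finset.card_biUnion_le (Finset.sum_le_sum fun a _ => ?_)
      exact le_trans Finset.card_image_le (ih _ _)

theorem support_mem_pl (t : V) : ∀ {v : V} (p : G.Walk v t) (_ : p.IsPath) (S : Finset V)
    (n : ℕ), (∀ x ∈ p.support, x ∈ S) → S.card ≤ n → p.support ∈ pl G t n S v := by
  intro v p
  induction p with
  | @nil u =>
    intro _ S n hS hn
    have hpos : 0 < S.card := Finset.card_pos.2 ⟨u, hS u (by simp)⟩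
    obtain ⟨k, rfl⟩ : ∃ k, n = k + 1 := ⟨n - 1, by omega⟩
    simp [pl]
  | @cons v w t' h q ih =>
    intro hp S n hS hn
    rw [SimpleGraph.Walk.cons_isPath_iff] at hp
    have hvS : v ∈ S := hS v (by simp)
    have hpos : 0 < S.card := Finset.card_pos.2 ⟨_, hvS⟩
    obtain ⟨k, rfl⟩ : ∃ k, n = k + 1 := ⟨n - 1, by omega⟩
    have hvt : v ≠ t' := by
      rintro rfl
      exact hp.2 (by simp)
    rw [pl, if_neg hvt]
    rw [Finset.mem_biUnion]
    refine ⟨w, ?_, ?_⟩
    · rw [mem_nb]
      refine ⟨Finset.mem_erase.2 ⟨h.ne', hS w ?_⟩, h⟩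
      simp [SimpleGraph.Walk.support_cons]
    · rw [Finset.mem_image]
      refine ⟨q.support, ih hp.1 (S.erase v) k ?_ ?_, by simp [SimpleGraph.Walk.support_cons]⟩
      · intro x hx
        refine Finset.mem_erase.2 ⟨?_, hS x (by simp [SimpleGraph.Walk.support_cons, hx])⟩
        rintro rfl
        exact hp.2 hx
      · rw [Finset.card_erase_of_mem hvS]; omega

end Pool.Agent.H90Cyc
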