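import Mathlib

/-!
Enumeration of multisets in the kernel, and the reduction to extreme points.
-/

namespace Pool.Agent.H90Cyc

/-- domination by a segment of consecutive points -/
def domA : List (ℕ × ℕ) → ℕ → ℕ → ℕ → ℕ → Bool
  | [], x, y, a, b => Nat.ble a x && Nat.ble y b
  | p :: H, x, y, a, b =>
    match Nat.ble a x with
    | true => Nat.ble y b
    | false =>
      match Nat.ble a p.1 with
      | true => Nat.ble (y * (p.1 - a) + p.2 * (a - x)) (b * (p.1 - x))
      | false => domA H p.1 p.2 a b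

def domE (H : List (ℕ × ℕ)) (a b : ℕ) : Bool :=
  match H with
  | [] => false
  | p :: H' => domA H' p.1 p.2 a b

def DomN (H : List (ℕ × ℕ)) (a b : ℕ) : Prop :=
  ∃ p1 ∈ H, ∃ p2 ∈ H, ∃ s t : ℕ, 0 < s + t ∧ a * (s + t) ≤ s * p1.1 + t * p2.1 ∧
    s * p1.2 + t * p2.2 ≤ b * (s + t)

theorem domA_sound : ∀ (H : List (ℕ × ℕ)) (x y a b : ℕ), domA H x y a b = true →
    DomN ((x, y) :: H) a b := by
  intro H
  induction H with
  | nil =>
    intro x y a b h
    rw [domA, Bool.and_eq_true, Nat.ble_eq, Nat.ble_eq] at h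
    exact ⟨(x, y), by simp, (x, y), by simp, 1, 0, by norm_num, by simpa using h.1,
      by simpa using h.2⟩
  | cons p H ih =>
    intro x y a b h
    rw [domA] at h
    split at h
    · rename_i h1
      rw [Nat.ble_eq] at h1 h
      exact ⟨(x, y), by simp, (x, y), by simp, 1, 0, by norm_num, by simpa using h1,
        by simpa using h⟩
    · rename_i h1
      have h1' : x < a := by
        by_contra hcon
        rw [not_lt, ← Nat.ble_eq, h1] at hcon
        simp at hcon
      split at h
      · rename_i h2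
        rw [Nat.ble_eq] at h2 h
        obtain ⟨u, hu⟩ := Nat.exists_eq_add_of_lt h1'
        obtain ⟨w, hw⟩ := Nat.exists_eq_add_of_le h2
        have e1 : p.1 - a = w := by omega
        have e2 : a - x = u + 1 := by omega
        have e3 : p.1 - x = w + (u + 1) := by omega
        rw [e1, e2, e3] at h
        refine ⟨(x, y), by simp, p, by simp, w, u + 1, by omega, ?_, ?_⟩
        · simp only
          rw [hw, hu]
          apply le_of_eq; ring
        · simp only
          calc w * y + (u + 1) * p.2 = y * w + p.2 * (u + 1) := by ring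
            _ ≤ b * (w + (u + 1)) := h
      · obtain ⟨p1, hp1, p2, hp2, s, t, h3⟩ := ih p.1 p.2 a b h
        exact ⟨p1, List.mem_cons_of_mem _ hp1, p2, List.mem_cons_of_mem _ hp2, s, t, h3⟩

theorem domE_sound (H : List (ℕ × ℕ)) (a b : ℕ) (h : domE H a b = true) : DomN H a b := by
  cases H with
  | nil => simp [domE] at h
  | cons p H' => exact domA_sound H' p.1 p.2 a b h

/-- all multisets of `n` codes from `L` of total star weight at most `st` are dominated -/
def chk (H : List (ℕ × ℕ)) (SX SY : ℕ) : ℕ → List (ℕ × ℕ × ℕ) → ℕ → ℕ → ℕ → Bool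
  | 0, _, _, X, Y => domE H (X / SX + 1) (Y / SY)
  | n + 1, L, st, X, Y => L.tails.all (fun T =>
      match T with
      | [] => true
      | e :: _ =>
        match Nat.ble e.1 st with
        | true => chk H SX SY n T (st - e.1) (X * e.2.1) (Y * e.2.2)
        | false => true)

theorem chk_sound (H : List (ℕ × ℕ)) (SX SY : ℕ) : ∀ (n : ℕ) (L : List (ℕ × ℕ × ℕ))
    (st X Y : ℕ), chk H SX SY n L st X Y = true → ∀ m : Multiset (ℕ × ℕ × ℕ), m.card = n →
    (∀ e ∈ m, e ∈ L) → (m.map (fun e => e.1)).sum ≤ st →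
    DomN H (X * (m.map (fun e => e.2.1)).prod / SX + 1) (Y * (m.map (fun e => e.2.2)).prod / SY) := by
  intro n
  induction n with
  | zero =>
    intro L st X Y h m hm _ _
    rw [Multiset.card_eq_zero] at hm
    subst hm
    rw [chk] at h
    simpa using domE_sound _ _ _ h
  | succ n ih =>
    intro L
    induction L with
    | nil =>
      intro st X Y _ m hm hmL _
      exfalso
      obtain ⟨a, ha⟩ := Multiset.card_pos_iff_exists_mem.1 (by rw [hm]; exact Nat.succ_pos n)
      simpa using hmL a ha
    | cons e L ihL =>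
      intro st X Y h m hm hmL hst
      rw [chk, List.tails_cons, List.all_cons, Bool.and_eq_true] at h
      by_cases he : e ∈ m
      · obtain ⟨m', rfl⟩ := Multiset.exists_cons_of_mem he
        rw [Multiset.map_cons, Multiset.sum_cons] at hst
        have hle : Nat.ble e.1 st = true := by rw [Nat.ble_eq]; omega
        have h1 := h.1
        simp only [hle] at h1
        have := ih (e :: L) (st - e.1) _ _ h1 m' (by simpa using hm)
          (fun x hx => hmL x (Multiset.mem_cons_of_mem hx)) (by omega)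
        rw [Multiset.map_cons, Multiset.prod_cons, Multiset.map_cons, Multiset.prod_cons,
          ← mul_assoc, ← mul_assoc]
        exact this
      · refine ihL st X Y ?_ m hm (fun x hx => ?_) hst
        · rw [chk]; exact h.2
        · rcases List.mem_cons.1 (hmL x hx) with h2 | h2
          · exact absurd (h2 ▸ hx) he
          · exact h2

/-- all multisets of `n` points of `L` satisfy the inequality -/
def hchk (C : ℕ) : ℕ → List (ℕ × ℕ) → ℕ → ℕ → Bool
  | 0, _, R, P => Nat.ble (R * C) P
  | n + 1, L, R, P => L.tails.all (fun T =>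
      match T with
      | [] => true
      | e :: _ => hchk C n T (R + e.1) (P * e.2))

theorem hchk_sound (C : ℕ) : ∀ (n : ℕ) (L : List (ℕ × ℕ)) (R P : ℕ), hchk C n L R P = true →
    ∀ m : Multiset (ℕ × ℕ), m.card = n → (∀ e ∈ m, e ∈ L) →
    (R + (m.map Prod.fst).sum) * C ≤ P * (m.map Prod.snd).prod := by
  intro n
  induction n with
  | zero =>
    intro L R P h m hm _
    rw [Multiset.card_eq_zero] at hm
    subst hm
    rw [hchk, Nat.ble_eq] at h
    simpa using h
  | succ n ih =>
    intro L
    induction L with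
    | nil =>
      intro R P _ m hm hmL
      exfalso
      obtain ⟨a, ha⟩ := Multiset.card_pos_iff_exists_mem.1 (by rw [hm]; exact Nat.succ_pos n)
      simpa using hmL a ha
    | cons e L ihL =>
      intro R P h m hm hmL
      rw [hchk, List.tails_cons, List.all_cons, Bool.and_eq_true] at h
      by_cases he : e ∈ m
      · obtain ⟨m', rfl⟩ := Multiset.exists_cons_of_mem he
        have := ih (e :: L) _ _ h.1 m' (by simpa using hm)
          (fun x hx => hmL x (Multiset.mem_cons_of_mem hx))
        rw [Multiset.map_cons, Multiset.sum_cons, Multiset.map_cons, Multiset.prod_cons,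
          ← mul_assoc, ← add_assoc]
        exact this
      · refine ihL R P ?_ m hm (fun x hx => ?_)
        · rw [hchk]; exact h.2
        · rcases List.mem_cons.1 (hmL x hx) with h2 | h2
          · exact absurd (h2 ▸ hx) he
          · exact h2

/-- domination of a real pair by points of `Q` -/
def DomR (Q : Set (ℝ × ℝ)) (p : ℝ × ℝ) : Prop :=
  ∃ a ∈ Q, ∃ b ∈ Q, ∃ l : ℝ, 0 ≤ l ∧ l ≤ 1 ∧ p.1 ≤ l * a.1 + (1 - l) * b.1 ∧
    l * a.2 + (1 - l) * b.2 ≤ p.2

theorem multiaffine (Q : Set (ℝ × ℝ)) (hQ : ∀ p ∈ Q, 0 ≤ p.2) (d : ℕ)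
    (h : ∀ m : Multiset (ℝ × ℝ), m.card = d → (∀ p ∈ m, p ∈ Q) →
      (m.map Prod.fst).sum ≤ (m.map Prod.snd).prod)
    (m : Multiset (ℝ × ℝ)) (hm : m.card = d) (hP : ∀ p ∈ m, DomR Q p) :
    (m.map Prod.fst).sum ≤ (m.map Prod.snd).prod := by
  suffices key : ∀ m1 : Multiset (ℝ × ℝ), (∀ p ∈ m1, DomR Q p) → ∀ m2 : Multiset (ℝ × ℝ),
      (∀ p ∈ m2, p ∈ Q) → m1.card + m2.card = d →
      ((m1 + m2).map Prod.fst).sum ≤ ((m1 + m2).map Prod.snd).prod by
    simpa using key m hP 0 (by simp) (by simpa using hm)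
  intro m1
  induction m1 using Multiset.induction_on with
  | empty =>
    intro _ m2 h2 hc
    rw [zero_add]
    exact h m2 (by simpa using hc) h2
  | cons p m1 ih =>
    intro h1 m2 h2 hc
    obtain ⟨a, ha, b, hb, l, hl0, hl1, hp1, hp2⟩ := h1 p (Multiset.mem_cons_self p m1)
    have h1' : ∀ p ∈ m1, DomR Q p := fun x hx => h1 x (Multiset.mem_cons_of_mem hx)
    rw [Multiset.card_cons] at hc
    have ea := ih h1' (a ::ₘ m2) (fun x hx => by
      rcases Multiset.mem_cons.1 hx with rfl | hx
      · exact ha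
      · exact h2 x hx) (by rw [Multiset.card_cons]; omega)
    have eb := ih h1' (b ::ₘ m2) (fun x hx => by
      rcases Multiset.mem_cons.1 hx with rfl | hx
      · exact hb
      · exact h2 x hx) (by rw [Multiset.card_cons]; omega)
    have hP0 : 0 ≤ ((m1 + m2).map Prod.snd).prod := by
      refine Multiset.prod_nonneg ?_
      intro x hx
      rw [Multiset.mem_map] at hx
      obtain ⟨y, hy, rfl⟩ := hx
      rcases Multiset.mem_add.1 hy with hy | hy
      · obtain ⟨a', ha', b', hb', l', hl0', hl1', _, hp2'⟩ := h1' y hy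
        have := hQ a' ha'
        have := hQ b' hb'
        have : 0 ≤ l' * a'.2 + (1 - l') * b'.2 := by
          have : 0 ≤ 1 - l' := by linarith
          positivity
        linarith
      · exact hQ y (h2 y hy)
    simp only [Multiset.add_cons, Multiset.cons_add, Multiset.map_cons, Multiset.sum_cons,
      Multiset.prod_cons] at ea eb ⊢
    set S := ((m1 + m2).map Prod.fst).sum
    set P := ((m1 + m2).map Prod.snd).prod
    have hl1' : 0 ≤ 1 - l := by linarith
    calc p.1 + S ≤ (l * a.1 + (1 - l) * b.1) + S := by linarith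
      _ = l * (a.1 + S) + (1 - l) * (b.1 + S) := by ring
      _ ≤ l * (a.2 * P) + (1 - l) * (b.2 * P) :=
          add_le_add (mul_le_mul_of_nonneg_left ea hl0) (mul_le_mul_of_nonneg_left eb hl1')
      _ = (l * a.2 + (1 - l) * b.2) * P := by ring
      _ ≤ p.2 * P := mul_le_mul_of_nonneg_right hp2 hP0

/-- from `d` to larger numbers of factors -/
theorem many (D : ℕ) (hD : 1 ≤ D) (P : ℝ × ℝ → Prop)
    (hg : ∀ p, P p → ((D : ℝ) + 1) / D ≤ p.2)
    (h : ∀ m : Multiset (ℝ × ℝ), m.card = D → (∀ p ∈ m, P p) →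
      (m.map Prod.fst).sum ≤ (m.map Prod.snd).prod) :
    ∀ d, D ≤ d → ∀ m : Multiset (ℝ × ℝ), m.card = d → (∀ p ∈ m, P p) →
      (m.map Prod.fst).sum ≤ (m.map Prod.snd).prod := by
  intro d hd
  induction d, hd using Nat.le_induction with
  | base => exact h
  | succ d hd ih =>
    intro m hm hP
    have hD' : (0 : ℝ) < D := by exact_mod_cast hD
    have hd' : (D : ℝ) ≤ d := by exact_mod_cast hd
    have hpos : ∀ p ∈ m, 0 ≤ p.2 := fun p hp => le_trans (by positivity) (hg p (hP p hp))
    obtain ⟨p, hp, hmin⟩ := Finset.exists_min_image m.toFinset Prod.fst (by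
      obtain ⟨a, ha⟩ := Multiset.card_pos_iff_exists_mem.1 (by rw [hm]; exact Nat.succ_pos d)
      exact ⟨a, Multiset.mem_toFinset.2 ha⟩)
    rw [Multiset.mem_toFinset] at hp
    obtain ⟨m', rfl⟩ := Multiset.exists_cons_of_mem hp
    rw [Multiset.card_cons] at hm
    have hm' : m'.card = d := by omega
    have h1 := ih m' hm' (fun x hx => hP x (Multiset.mem_cons_of_mem hx))
    have h2 : (d : ℝ) * p.1 ≤ (m'.map Prod.fst).sum := by
      have := Multiset.card_nsmul_le_sum (s := m'.map Prod.fst) (a := p.1) (by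
        intro x hx
        rw [Multiset.mem_map] at hx
        obtain ⟨y, hy, rfl⟩ := hx
        exact hmin y (Multiset.mem_toFinset.2 (Multiset.mem_cons_of_mem hy)))
      rw [Multiset.card_map, hm', nsmul_eq_mul] at this
      exact this
    have h3 := hg p (hP p hp)
    have h4 : 0 ≤ (m'.map Prod.snd).prod := by
      refine Multiset.prod_nonneg ?_
      intro x hx
      rw [Multiset.mem_map] at hx
      obtain ⟨y, hy, rfl⟩ := hx
      exact hpos y (Multiset.mem_cons_of_mem hy)
    rw [Multiset.map_cons, Multiset.sum_cons, Multiset.map_cons, Multiset.prod_cons]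
    set S := (m'.map Prod.fst).sum
    set Q := (m'.map Prod.snd).prod
    have h5 : (0 : ℝ) < d := lt_of_lt_of_le hD' hd'
    -- `p.1 + S ≤ (d + 1) / d * Q`
    have h6 : p.1 + S ≤ ((d : ℝ) + 1) / d * Q := by
      rw [div_mul_eq_mul_div, le_div_iff₀ h5]
      nlinarith
    have h7 : ((d : ℝ) + 1) / d ≤ ((D : ℝ) + 1) / D := by
      rw [div_le_div_iff₀ h5 hD']
      nlinarith
    calc p.1 + S ≤ ((d : ℝ) + 1) / d * Q := h6
      _ ≤ p.2 * Q := mul_le_mul_of_nonneg_right (le_trans h7 h3) h4

end Pool.Agent.H90Cyc
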