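import Pool.Agent.H90Cyc.Checks

/-!
The local inequality for the tables.
-/

namespace Pool.Agent.H90Cyc

open Finset

/-- the extreme points as real pairs -/
def QQ (d : ℕ) : Set (ℝ × ℝ) :=
  {p | ∃ h ∈ HL.getD d [], p = ((h.1 : ℝ) / 100000000, (h.2 : ℝ) / 100000000)}

theorem domR_of_domN {d a b : ℕ} (h : DomN (HL.getD d []) a b) {p : ℝ × ℝ}
    (h1 : p.1 ≤ (a : ℝ) / 100000000) (h2 : (b : ℝ) / 100000000 ≤ p.2) : DomR (QQ d) p := by
  obtain ⟨p1, hp1, p2, hp2, s, t, hst, ha, hb⟩ := h
  have hst' : (0 : ℝ) < (s : ℝ) + t := by exact_mod_cast hst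
  have ha' : (a : ℝ) * (s + t) ≤ s * p1.1 + t * p2.1 := by exact_mod_cast ha
  have hb' : (s : ℝ) * p1.2 + t * p2.2 ≤ b * (s + t) := by exact_mod_cast hb
  have hs0 : (0 : ℝ) ≤ s := Nat.cast_nonneg _
  have ht0 : (0 : ℝ) ≤ t := Nat.cast_nonneg _
  refine ⟨_, ⟨p1, hp1, rfl⟩, _, ⟨p2, hp2, rfl⟩, (s : ℝ) / (s + t), by positivity, ?_, ?_, ?_⟩
  · rw [div_le_one hst']; linarith
  · have e : (1 : ℝ) - s / (s + t) = t / (s + t) := by field_simp; ring
    simp only [e]
    have e2 : (s : ℝ) / (s + t) * (p1.1 / 100000000) + t / (s + t) * (p2.1 / 100000000)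
        = (s * p1.1 + t * p2.1) / (s + t) / 100000000 := by field_simp
    rw [e2]
    refine le_trans h1 (div_le_div_of_nonneg_right ?_ (by norm_num))
    rw [le_div_iff₀ hst']; exact ha'
  · have e : (1 : ℝ) - s / (s + t) = t / (s + t) := by field_simp; ring
    simp only [e]
    have e2 : (s : ℝ) / (s + t) * (p1.2 / 100000000) + t / (s + t) * (p2.2 / 100000000)
        = (s * p1.2 + t * p2.2) / (s + t) / 100000000 := by field_simp
    rw [e2]
    refine le_trans (div_le_div_of_nonneg_right ?_ (by norm_num)) h2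
    rw [div_le_iff₀ hst']; exact hb'

theorem prod_le_of {m : Multiset (Bool × ℕ)} (F : Bool × ℕ → ℝ) (N : Bool × ℕ → ℕ)
    (h0 : ∀ c, 0 ≤ F c) (h : ∀ c, F c ≤ (N c : ℝ) / 100000000) :
    (m.map F).prod ≤ (((m.map N).prod : ℕ) : ℝ) / 100000000 ^ m.card := by
  induction m using Multiset.induction_on with
  | empty => simp
  | cons c m ih =>
    rw [Multiset.map_cons, Multiset.prod_cons, Multiset.map_cons, Multiset.prod_cons,
      Multiset.card_cons, pow_succ, Nat.cast_mul, mul_comm (100000000 ^ m.card : ℝ),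
      ← div_mul_div_comm]
    refine mul_le_mul (h c) ih ?_ (by positivity)
    refine Multiset.prod_nonneg ?_
    intro x hx
    rw [Multiset.mem_map] at hx
    obtain ⟨y, _, rfl⟩ := hx
    exact h0 y

theorem prod_ge_of {m : Multiset (Bool × ℕ)} (F : Bool × ℕ → ℝ) (N : Bool × ℕ → ℕ)
    (h0 : ∀ c, 0 ≤ F c) (h : ∀ c, (N c : ℝ) / 100000000 ≤ F c) :
    (((m.map N).prod : ℕ) : ℝ) / 100000000 ^ m.card ≤ (m.map F).prod := by
  induction m using Multiset.induction_on with
  | empty => simp
  | cons c m ih =>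
    rw [Multiset.map_cons, Multiset.prod_cons, Multiset.map_cons, Multiset.prod_cons,
      Multiset.card_cons, pow_succ, Nat.cast_mul, mul_comm (100000000 ^ m.card : ℝ),
      ← div_mul_div_comm]
    exact mul_le_mul (h c) ih (by positivity) (h0 c)

theorem map_split (m : Multiset (Bool × ℕ)) (N : Bool × ℕ → ℕ) :
    (m.map N).prod = N (true, 2) ^ (m.card - (m.filter (fun c => c ≠ (true, 2))).card)
      * ((m.filter (fun c => c ≠ (true, 2))).map N).prod := by
  induction m using Multiset.induction_on with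
  | empty => simp
  | cons c m ih =>
    have hle : (m.filter (fun c => c ≠ (true, 2))).card ≤ m.card :=
      Multiset.card_le_card (Multiset.filter_le _ _)
    by_cases hc : c ≠ (true, 2)
    · rw [Multiset.filter_cons_of_pos (p := fun c : Bool × ℕ => c ≠ (true, 2)) m hc,
        Multiset.map_cons, Multiset.prod_cons,
        Multiset.map_cons, Multiset.prod_cons, ih, Multiset.card_cons, Multiset.card_cons,
        Nat.add_sub_add_right]
      ring
    · rw [Multiset.filter_cons_of_neg (p := fun c : Bool × ℕ => c ≠ (true, 2)) m hc,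
        Multiset.map_cons, Multiset.prod_cons, ih, Multiset.card_cons]
      rw [not_not] at hc
      subst hc
      rw [Nat.succ_sub hle, pow_succ]
      ring

theorem star_split (m : Multiset (Bool × ℕ)) :
    (m.filter (fun c => c.1 = true)).card
      = (m.card - (m.filter (fun c => c ≠ (true, 2))).card)
        + ((m.filter (fun c => c ≠ (true, 2))).map stW).sum := by
  induction m using Multiset.induction_on with
  | empty => simp
  | cons c m ih =>
    have hle : (m.filter (fun c => c ≠ (true, 2))).card ≤ m.card :=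
      Multiset.card_le_card (Multiset.filter_le _ _)
    by_cases hc : c ≠ (true, 2)
    · rw [Multiset.filter_cons_of_pos (p := fun c : Bool × ℕ => c ≠ (true, 2)) m hc, Multiset.map_cons,
        Multiset.sum_cons, Multiset.card_cons, Multiset.card_cons, Nat.add_sub_add_right]
      by_cases h1 : c.1 = true
      · rw [Multiset.filter_cons_of_pos (p := fun c : Bool × ℕ => c.1 = true) m h1, Multiset.card_cons, ih]
        unfold stW; rw [if_pos h1]; ring
      · rw [Multiset.filter_cons_of_neg (p := fun c : Bool × ℕ => c.1 = true) m h1, ih]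
        unfold stW; rw [if_neg h1]; ring
    · rw [Multiset.filter_cons_of_neg (p := fun c : Bool × ℕ => c ≠ (true, 2)) m hc, Multiset.card_cons]
      rw [not_not] at hc
      subst hc
      rw [Multiset.filter_cons_of_pos (p := fun c : Bool × ℕ => c.1 = true) m rfl, Multiset.card_cons, ih,
        Nat.succ_sub hle]
      omega

theorem adm_dom_F {d : ℕ} (hd : 1 ≤ d) {lr lg : ℝ} (h : AdmF 6 ff qq bb d lr lg) :
    DomR (QQ (min d 7)) (Real.exp lr, Real.exp lg) := by
  obtain ⟨k, hk2, hk6, m, hcard, hval, hstar, hpos, hlr, hlg⟩ := h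
  set m' := m.filter (fun c => c ≠ (true, 2)) with hm'
  set d' := m'.card with hd'
  set s := k - 1 - d' with hs
  set e := min d 7 with he
  have hle : d' ≤ m.card := Multiset.card_le_card (Multiset.filter_le _ _)
  have hsum : s + d' = k - 1 := by omega
  have hstar' := star_split m
  rw [← hm', ← hd', hcard, ← hs] at hstar'
  have hstW : (m'.map stW).sum ≤ d' := by
    have : (m'.map stW).sum ≤ m'.card • 1 := by
      have := Multiset.sum_le_card_nsmul (m'.map stW) 1 (by
        intro x hx
        rw [Multiset.mem_map] at hx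
        obtain ⟨y, _, rfl⟩ := hx
        unfold stW; split_ifs <;> norm_num)
      rwa [Multiset.card_map] at this
    simpa using this
  have hsr : s ∈ range (min (k - 1) e) := by
    rw [mem_range]; omega
  have hchk := chkF_ok e (mem_Icc.2 ⟨by omega, min_le_right _ _⟩) k (mem_Icc.2 ⟨hk2, hk6⟩) s hsr
  unfold chkF at hchk
  have hds : k - 1 - s = d' := by omega
  rw [hds] at hchk
  set mt : Multiset (ℕ × ℕ × ℕ) := m'.map (fun c => (stW c, XN e k d' c, YN e k c)) with hmt
  have h1 := chk_sound _ _ _ d' _ _ _ _ hchk mt (by rw [hmt, Multiset.card_map]) (by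
    intro x hx
    rw [hmt, Multiset.mem_map] at hx
    obtain ⟨c, hc, rfl⟩ := hx
    unfold tripL
    rw [List.mem_map]
    refine ⟨c, ?_, rfl⟩
    rw [hm', Multiset.mem_filter] at hc
    have hv := hval c hc.1
    have := codeL_mem c.2 (mem_Icc.2 hv)
    obtain ⟨c1, c2⟩ := c
    simp only at this hv hc ⊢
    cases c1 with
    | false => exact this.1
    | true =>
      rcases this.2 with h2 | h2
      · exact absurd (by rw [h2]) hc.2
      · exact h2) (by
    rw [hmt, Multiset.map_map]
    have : (Multiset.map ((fun e : ℕ × ℕ × ℕ => e.1) ∘ fun c => (stW c, XN e k d' c, YN e k c)) m')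
        = m'.map stW := rfl
    rw [this]
    omega)
  rw [hmt, Multiset.map_map, Multiset.map_map] at h1
  have e1 : (Multiset.map ((fun e : ℕ × ℕ × ℕ => e.2.1) ∘ fun c => (stW c, XN e k d' c, YN e k c)) m')
        = m'.map (XN e k d') := rfl
  have e2 : (Multiset.map ((fun e : ℕ × ℕ × ℕ => e.2.2) ∘ fun c => (stW c, XN e k d' c, YN e k c)) m')
        = m'.map (YN e k) := rfl
  rw [e1, e2] at h1
  have hX := map_split m (XN e k d')
  have hY := map_split m (YN e k)
  rw [← hm', ← hd', hcard, ← hs] at hX hY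
  rw [← hX] at h1
  have hk1 : k - 1 = (k - 2) + 1 := by omega
  refine domR_of_domN h1 ?_ ?_
  · -- the weight
    simp only
    rw [hlr, Real.exp_multiset_sum, Multiset.map_map]
    have hp := prod_le_of (m := m) (Real.exp ∘ fun c => - alc 6 ff bb d k c
        + rcc 6 ff qq bb d k d' c) (XN e k d') (fun c => (Real.exp_pos _).le) (fun c => by
          rw [he, ← XN_min]; exact X_le d k d' c)
    refine le_trans hp ?_
    rw [hcard, hk1]
    set X := (m.map (XN e k d')).prod
    have hlt : X < 100000000 ^ (k - 2) * (X / 100000000 ^ (k - 2) + 1) :=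
      Nat.lt_mul_div_succ _ (by positivity)
    have hlt' : (X : ℝ) ≤ 100000000 ^ (k - 2) * ((X / 100000000 ^ (k - 2) + 1 : ℕ) : ℝ) := by
      exact_mod_cast hlt.le
    rw [pow_succ, div_le_div_iff₀ (by positivity) (by positivity)]
    nlinarith
  · simp only
    rw [hlg, Real.exp_sub, Real.exp_multiset_sum, Multiset.map_map]
    have hp := prod_ge_of (m := m) (fun c => Real.exp (- alc 6 ff bb d k c)) (YN e k)
      (fun c => (Real.exp_pos _).le) (fun c => by
          rw [he, ← YN_min]; exact Y_ge d k c)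
    have hinv : (Multiset.map (fun c => Real.exp (- alc 6 ff bb d k c)) m).prod
        = ((Multiset.map (Real.exp ∘ fun c => alc 6 ff bb d k c) m).prod)⁻¹ := by
      rw [← Multiset.prod_map_inv]
      congr 1
      refine Multiset.map_congr rfl fun c _ => ?_
      simp only [Function.comp, Real.exp_neg]
    rw [hinv] at hp
    rw [div_eq_mul_inv (Real.exp (qq d k))]
    have hq : Real.exp (qq d k) = (psN e k : ℝ) / 1000000 := by
      unfold qq
      rw [psN_min, exp_lgn (psN_pos _ _)]
    rw [hq]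
    refine le_trans ?_ (mul_le_mul_of_nonneg_left hp (by positivity))
    rw [hcard, hk1]
    have hYeq : psN e k * YN e k (true, 2) ^ s * (m'.map (YN e k)).prod
        = psN e k * (m.map (YN e k)).prod := by rw [mul_assoc, ← hY]
    rw [hYeq]
    set Y := (m.map (YN e k)).prod
    have hle2 : (psN e k * Y / (100000000 ^ (k - 2) * 1000000)) * (100000000 ^ (k - 2) * 1000000)
      ≤ psN e k * Y := Nat.div_mul_le_self _ _
    have hle3 : ((psN e k * Y / (100000000 ^ (k - 2) * 1000000) : ℕ) : ℝ)
        * (100000000 ^ (k - 2) * 1000000) ≤ psN e k * Y := by exact_mod_cast hle2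
    rw [div_mul_div_comm, pow_succ, div_le_div_iff₀ (by norm_num) (by positivity)]
    nlinarith

theorem adm_dom_I {d : ℕ} (hd : 1 ≤ d) {lr lg : ℝ} (h : AdmI 6 ff qq d lr lg) :
    DomR (QQ (min d 7)) (Real.exp lr, Real.exp lg) := by
  obtain ⟨c, d', j, hc2, hc7, hd1, hj, hK, hlr, hlg⟩ := h
  set e := min d' 7 with he
  set d0 := min d 7 with hd0
  have hchk := chkI_ok d0 (mem_Icc.2 ⟨by omega, min_le_right _ _⟩) e
    (mem_Icc.2 ⟨by omega, min_le_right _ _⟩) c (mem_Icc.2 ⟨hc2, hc7⟩) (by omega)
  have hdom := domE_sound _ _ _ hchk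
  have hq : qq d' c = qq e c := by unfold qq; rw [psN_min]
  have hf16 : 0 ≤ ff 1 6 := good.f1K
  have hlr2 : lr ≤ e * (qq e c - ff 6 c) - ((6 - e : ℕ) : ℝ) * ff 1 6 := by
    refine le_trans hlr ?_
    rw [hq]
    have h1 : (d' : ℝ) * (qq e c - ff 6 c) ≤ e * (qq e c - ff 6 c) := by
      rcases Nat.lt_or_ge d' 8 with h | h
      · have : e = d' := by omega
        rw [this]
      · have he7 : e = 7 := by omega
        have h2 : qq e c - ff 6 c ≤ 0 := by
          rw [he7]
          unfold qq ff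
          have := lgn_le (psN_pos 7 c) (q7_le_f6 c (mem_Icc.2 ⟨hc2, hc7⟩))
          linarith
        have h3 : (e : ℝ) ≤ d' := by exact_mod_cast (min_le_left _ _)
        nlinarith
    have h2 : ((6 - e : ℕ) : ℝ) * ff 1 6 ≤ j * ff 1 6 := by
      refine mul_le_mul_of_nonneg_right ?_ hf16
      have : 6 - e ≤ j := by omega
      exact_mod_cast this
    linarith
  refine domR_of_domN hdom ?_ ?_
  · simp only
    refine le_trans (Real.exp_le_exp.2 hlr2) ?_
    rw [Real.exp_sub, Real.exp_nat_mul, Real.exp_nat_mul]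
    unfold qq ff
    rw [exp_lgn_sub (psN_pos _ _) (phN_pos _ _), exp_lgn (phN_pos _ _)]
    have h1 : (0 : ℝ) < phN 6 c := by exact_mod_cast phN_pos _ _
    have h2 : (0 : ℝ) < phN 1 6 := by exact_mod_cast phN_pos _ _
    set num := psN e c ^ e * 1000000 ^ (6 - e) with hnum
    set den := phN 6 c ^ e * phN 1 6 ^ (6 - e) with hden
    have hden0 : 0 < den := by
      rw [hden]; exact Nat.mul_pos (pow_pos (phN_pos _ _) _) (pow_pos (phN_pos _ _) _)
    have hlt : num * 100000000 < den * (num * 100000000 / den + 1) :=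
      Nat.lt_mul_div_succ _ hden0
    have hlt' : (num : ℝ) * 100000000 ≤ den * ((num * 100000000 / den + 1 : ℕ) : ℝ) := by
      exact_mod_cast hlt.le
    have hval : ((psN e c : ℝ) / phN 6 c) ^ e / ((phN 1 6 : ℝ) / 1000000) ^ (6 - e)
        = (num : ℝ) / den := by
      rw [hnum, hden]
      push_cast
      rw [div_pow, div_pow, div_div_div_eq]
    rw [hval, div_le_div_iff₀ (by exact_mod_cast hden0) (by norm_num)]
    linarith
  · simp only
    rw [hlg]
    unfold qq
    rw [psN_min d, exp_lgn (psN_pos _ _)]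
    push_cast
    rw [div_le_div_iff₀ (by norm_num) (by norm_num)]
    linarith

theorem adm_dom {d : ℕ} (hd : 1 ≤ d) {p : ℝ × ℝ} (h : Adm 6 ff qq bb (700000 / 1000000) d p) :
    DomR (QQ (min d 7)) p := by
  rcases h with ⟨lr, lg, h, rfl⟩ | ⟨lr, lg, h, rfl⟩ | rfl
  · exact adm_dom_F hd h
  · exact adm_dom_I hd h
  · have hdom := domE_sound _ _ _ (chkT_ok (min d 7) (mem_Icc.2 ⟨by omega, min_le_right _ _⟩))
    refine domR_of_domN hdom ?_ ?_
    · norm_num
    · simp only
      unfold qq
      rw [psN_min d, exp_lgn (psN_pos _ _)]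
      push_cast
      rw [div_le_div_iff₀ (by norm_num) (by norm_num)]
      linarith

theorem QQ_ineq {d : ℕ} (hd : d ∈ Icc 1 7) (m : Multiset (ℝ × ℝ)) (hm : m.card = d)
    (h : ∀ p ∈ m, p ∈ QQ d) : (m.map Prod.fst).sum ≤ (m.map Prod.snd).prod := by
  -- lift to pairs of naturals
  have hlift : ∀ m : Multiset (ℝ × ℝ), (∀ p ∈ m, p ∈ QQ d) → ∃ M : Multiset (ℕ × ℕ),
      M.card = m.card ∧ (∀ x ∈ M, x ∈ HL.getD d []) ∧
      (m.map Prod.fst).sum = (((M.map Prod.fst).sum : ℕ) : ℝ) / 100000000 ∧
      (m.map Prod.snd).prod = (((M.map Prod.snd).prod : ℕ) : ℝ) / 100000000 ^ M.card := by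
    intro m
    induction m using Multiset.induction_on with
    | empty => intro _; exact ⟨0, by simp⟩
    | cons p m ih =>
      intro h
      obtain ⟨M, h1, h2, h3, h4⟩ := ih (fun x hx => h x (Multiset.mem_cons_of_mem hx))
      obtain ⟨x, hx, rfl⟩ := h p (Multiset.mem_cons_self p m)
      refine ⟨x ::ₘ M, by simp [h1], ?_, ?_, ?_⟩
      · intro y hy
        rcases Multiset.mem_cons.1 hy with rfl | hy
        · exact hx
        · exact h2 y hy
      · rw [Multiset.map_cons, Multiset.sum_cons, Multiset.map_cons, Multiset.sum_cons, h3]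
        push_cast; ring
      · rw [Multiset.map_cons, Multiset.prod_cons, Multiset.map_cons, Multiset.prod_cons, h4,
          Multiset.card_cons, pow_succ]
        push_cast
        rw [div_mul_div_comm]
        congr 1
        ring
  obtain ⟨M, h1, h2, h3, h4⟩ := hlift m h
  have h5 := hchk_sound _ _ _ _ _ (hchk_ok d hd) M (by rw [h1, hm]) h2
  rw [h3, h4, h1, hm]
  rw [mem_Icc] at hd
  rw [zero_add, one_mul] at h5
  have h6 : (((M.map Prod.fst).sum : ℕ) : ℝ) * 100000000 ^ (d - 1)
      ≤ (((M.map Prod.snd).prod : ℕ) : ℝ) := by exact_mod_cast h5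
  obtain ⟨e, rfl⟩ : ∃ e, d = e + 1 := ⟨d - 1, by omega⟩
  rw [Nat.add_sub_cancel] at h6
  rw [pow_succ, div_le_div_iff₀ (by norm_num) (by positivity)]
  nlinarith

theorem QQ_nonneg (d : ℕ) : ∀ p ∈ QQ d, 0 ≤ p.2 := by
  rintro p ⟨h, _, rfl⟩
  simp only
  positivity

theorem loc : Loc 6 ff qq bb (700000 / 1000000) := by
  intro d hd m hm hadm
  rcases Nat.lt_or_ge d 8 with hd' | hd'
  · have he : min d 7 = d := by omega
    refine multiaffine (QQ d) (QQ_nonneg d) d ?_ m hm ?_
    · intro m' hm' h'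
      exact QQ_ineq (mem_Icc.2 ⟨hd, by omega⟩) m' hm' h'
    · intro p hp
      have := adm_dom hd (hadm p hp)
      rwa [he] at this
  · have he : min d 7 = 7 := by omega
    refine many 7 (by norm_num) (DomR (QQ 7)) ?_ ?_ d (by omega) m hm ?_
    · rintro p ⟨a, ⟨x, hx, rfl⟩, b, ⟨y, hy, rfl⟩, l, hl0, hl1, _, hp2⟩
      have h1 := h7_ok x hx
      have h2 := h7_ok y hy
      have h1' : (8 * 100000000 : ℝ) ≤ 7 * x.2 := by exact_mod_cast h1
      have h2' : (8 * 100000000 : ℝ) ≤ 7 * y.2 := by exact_mod_cast h2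
      refine le_trans ?_ hp2
      simp only
      norm_num
      nlinarith
    · intro m' hm' h'
      exact multiaffine (QQ 7) (QQ_nonneg 7) 7
        (fun m'' hm'' h'' => QQ_ineq (mem_Icc.2 ⟨by norm_num, by norm_num⟩) m'' hm'' h'') m' hm' h'
    · intro p hp
      have := adm_dom hd (hadm p hp)
      rwa [he] at this

/-- the bound for the number of cycles -/
theorem numCycles_le {V : Type*} [Fintype V] [DecidableEq V] (G : SimpleGraph V)
    [DecidableRel G.Adj] :
    (numCycles G : ℝ) ≤ 3 * G.edgeFinset.card * (13817 / 10000 : ℝ) ^ G.edgeFinset.card := by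
  have hL : (0 : ℝ) ≤ Real.log (13817 / 10000) := Real.log_nonneg (by norm_num)
  have hlg : ∀ n : ℕ, 0 < n → n ≤ 1381700 → lgn n ≤ Real.log (13817 / 10000) := by
    intro n h0 hn
    have h0' : (0 : ℝ) < n := by exact_mod_cast h0
    have hn' : (n : ℝ) ≤ 1381700 := by exact_mod_cast hn
    unfold lgn
    rw [← Real.log_div h0'.ne' (by norm_num)]
    refine Real.log_le_log (by positivity) ?_
    rw [div_le_div_iff₀ (by norm_num) (by norm_num)]
    linarith
  have h := numCycles_bound good (ct := 700000 / 1000000) (by norm_num) loc hL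
    (fun k l h1 _ h3 _ => hlg _ (phN_pos _ _)
      (ph_cap _ (min_le_right _ _) _ (min_le_right _ _) (by omega) (by omega)))
    (fun d k h1 h2 _ => hlg _ (psN_pos _ _)
      (ps_cap _ (min_le_right _ _) _ (min_le_right _ _) (by omega) (by omega))) G
  refine le_trans h ?_
  rw [mul_comm (G.edgeFinset.card : ℝ) (Real.log _), Real.exp_mul, Real.exp_log (by norm_num),
    Real.rpow_natCast]
  set P : ℝ := (13817 / 10000 : ℝ) ^ G.edgeFinset.card with hP
  have hp : (0 : ℝ) ≤ (G.edgeFinset.card : ℝ) * P := by positivity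
  have e1 : 2 * (G.edgeFinset.card : ℝ) * ((700000 / 1000000 : ℝ)⁻¹ * P)
      = (2 * (700000 / 1000000 : ℝ)⁻¹) * (G.edgeFinset.card * P) := by ring
  have e2 : 3 * (G.edgeFinset.card : ℝ) * P = 3 * (G.edgeFinset.card * P) := by ring
  rw [e1, e2]
  exact mul_le_mul_of_nonneg_right (by norm_num) hp

end Pool.Agent.H90Cyc
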