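import Pool.Agent.H90Cyc.Tab
import Pool.Agent.H90Cyc.Enum

/-!
Integer versions of the weights and gains.
-/

namespace Pool.Agent.H90Cyc

open Finset

def numY (k : ℕ) (c : Bool × ℕ) : ℕ :=
  if c.1 = true then (if c.2 = 7 then phN k 6 else 1000000) else phN k c.2
def denY (d k : ℕ) (c : Bool × ℕ) : ℕ :=
  if c.1 = true then (if c.2 = 7 then phN (k - 1) 6 else bN d k c.2) else phN (k - 1) c.2
def numR (d' : ℕ) (c : Bool × ℕ) : ℕ :=
  if c.1 = true then (if c.2 = 7 then psN d' 6 else if c.2 = 2 then 1000000 * 1000000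
    else psN d' (c.2 - 1) * 1000000) else psN d' c.2
def denR (d k : ℕ) (c : Bool × ℕ) : ℕ :=
  if c.1 = true then (if c.2 = 7 then phN k 6 else if c.2 = 2 then phN k 2 * bN d 2 k
    else phN k c.2 * bN d c.2 k) else phN k c.2

def XN (d k d' : ℕ) (c : Bool × ℕ) : ℕ :=
  numY k c * numR d' c * 100000000 / (denY d k c * denR d k c) + 1
def YN (d k : ℕ) (c : Bool × ℕ) : ℕ := numY k c * 100000000 / denY d k c

theorem numY_pos (k : ℕ) (c : Bool × ℕ) : 0 < numY k c := by
  unfold numY; split_ifs <;> first | exact phN_pos _ _ | norm_num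
theorem denY_pos (d k : ℕ) (c : Bool × ℕ) : 0 < denY d k c := by
  unfold denY; split_ifs <;> first | exact phN_pos _ _ | exact bN_pos _ _ _
theorem numR_pos (d' : ℕ) (c : Bool × ℕ) : 0 < numR d' c := by
  unfold numR
  split_ifs
  · exact psN_pos _ _
  · norm_num
  · exact Nat.mul_pos (psN_pos _ _) (Nat.succ_pos 999999)
  · exact psN_pos _ _
theorem denR_pos (d k : ℕ) (c : Bool × ℕ) : 0 < denR d k c := by
  unfold denR; split_ifs <;> first | exact phN_pos _ _ | exact Nat.mul_pos (phN_pos _ _) (bN_pos _ _ _)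

theorem exp_lgn_sub {a b : ℕ} (ha : 0 < a) (hb : 0 < b) :
    Real.exp (lgn a - lgn b) = (a : ℝ) / b := by
  rw [Real.exp_sub, exp_lgn ha, exp_lgn hb]
  have : (0 : ℝ) < b := by exact_mod_cast hb
  field_simp

theorem exp_neg_lgn {b : ℕ} (hb : 0 < b) : Real.exp (- lgn b) = 1000000 / (b : ℝ) := by
  rw [Real.exp_neg, exp_lgn hb, inv_div]

theorem exp_neg_alc (d k : ℕ) (c : Bool × ℕ) :
    Real.exp (- alc 6 ff bb d k c) = (numY k c : ℝ) / denY d k c := by
  unfold alc numY denY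
  split_ifs with h1 h2
  · unfold ff
    rw [neg_sub, exp_lgn_sub (phN_pos _ _) (phN_pos _ _)]
  · unfold bb
    rw [exp_neg_lgn (bN_pos _ _ _)]
    norm_num
  · unfold ff
    rw [neg_sub, exp_lgn_sub (phN_pos _ _) (phN_pos _ _)]

theorem exp_rcc (d k d' : ℕ) (c : Bool × ℕ) :
    Real.exp (rcc 6 ff qq bb d k d' c) = (numR d' c : ℝ) / denR d k c := by
  unfold rcc numR denR
  split_ifs with h1 h2 h3
  · unfold ff qq
    rw [neg_add_eq_sub, exp_lgn_sub (psN_pos _ _) (phN_pos _ _)]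
  · unfold ff bb
    rw [sub_eq_add_neg, Real.exp_add, exp_neg_lgn (bN_pos _ _ _), exp_neg_lgn (phN_pos _ _)]
    have h4 : (0 : ℝ) < phN k 2 := by exact_mod_cast phN_pos _ _
    have h5 : (0 : ℝ) < bN d 2 k := by exact_mod_cast bN_pos _ _ _
    push_cast
    field_simp
    try norm_num
  · unfold ff bb qq
    rw [Real.exp_add, sub_eq_add_neg, Real.exp_add, exp_neg_lgn (bN_pos _ _ _),
      exp_neg_lgn (phN_pos _ _), exp_lgn (psN_pos _ _)]
    have h4 : (0 : ℝ) < phN k c.2 := by exact_mod_cast phN_pos _ _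
    have h5 : (0 : ℝ) < bN d c.2 k := by exact_mod_cast bN_pos _ _ _
    push_cast
    field_simp
  · unfold ff qq
    rw [neg_add_eq_sub, exp_lgn_sub (psN_pos _ _) (phN_pos _ _)]

theorem X_le (d k d' : ℕ) (c : Bool × ℕ) :
    Real.exp (- alc 6 ff bb d k c + rcc 6 ff qq bb d k d' c) ≤ (XN d k d' c : ℝ) / 100000000 := by
  rw [Real.exp_add, exp_neg_alc, exp_rcc]
  have h1 : (0 : ℝ) < denY d k c := by exact_mod_cast denY_pos _ _ _
  have h2 : (0 : ℝ) < denR d k c := by exact_mod_cast denR_pos _ _ _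
  have h3 : numY k c * numR d' c * 100000000 < denY d k c * denR d k c * XN d k d' c :=
    Nat.lt_mul_div_succ _ (Nat.mul_pos (denY_pos _ _ _) (denR_pos _ _ _))
  have h4 : (numY k c * numR d' c * 100000000 : ℝ) < denY d k c * denR d k c * XN d k d' c := by
    exact_mod_cast h3
  rw [div_mul_div_comm, div_le_div_iff₀ (by positivity) (by norm_num)]
  linarith

theorem Y_ge (d k : ℕ) (c : Bool × ℕ) :
    (YN d k c : ℝ) / 100000000 ≤ Real.exp (- alc 6 ff bb d k c) := by
  rw [exp_neg_alc]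
  have h1 : (0 : ℝ) < denY d k c := by exact_mod_cast denY_pos _ _ _
  have h3 : YN d k c * denY d k c ≤ numY k c * 100000000 := Nat.div_mul_le_self _ _
  have h4 : (YN d k c * denY d k c : ℝ) ≤ numY k c * 100000000 := by exact_mod_cast h3
  rw [div_le_div_iff₀ (by norm_num) (by positivity)]
  linarith

theorem psN_min (d k : ℕ) : psN d k = psN (min d 7) k := by unfold psN; simp
theorem bN_min (d k l : ℕ) : bN d k l = bN (min d 7) k l := by unfold bN; simp

theorem XN_min (d k d' : ℕ) (c : Bool × ℕ) : XN d k d' c = XN (min d 7) k d' c := by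
  unfold XN denY denR
  rw [bN_min d k c.2, bN_min d 2 k, bN_min d c.2 k]

theorem YN_min (d k : ℕ) (c : Bool × ℕ) : YN d k c = YN (min d 7) k c := by
  unfold YN denY
  rw [bN_min d k c.2]

/-- codes other than a star of class two -/
def codeL : List (Bool × ℕ) :=
  [(false, 2), (false, 3), (false, 4), (false, 5), (false, 6), (false, 7),
   (true, 3), (true, 4), (true, 5), (true, 6), (true, 7)]

def stW (c : Bool × ℕ) : ℕ := if c.1 = true then 1 else 0

def tripL (d k d' : ℕ) : List (ℕ × ℕ × ℕ) :=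
  codeL.map (fun c => (stW c, XN d k d' c, YN d k c))

def chkF (d k s : ℕ) : Bool :=
  chk (HL.getD d []) (100000000 ^ (k - 2)) (100000000 ^ (k - 2) * 1000000) (k - 1 - s)
    (tripL d k (k - 1 - s)) (d - 1 - s) (XN d k (k - 1 - s) (true, 2) ^ s)
    (psN d k * YN d k (true, 2) ^ s)

def chkI (d e c : ℕ) : Bool :=
  domE (HL.getD d [])
    (psN e c ^ e * 1000000 ^ (6 - e) * 100000000 / (phN 6 c ^ e * phN 1 6 ^ (6 - e)) + 1)
    (psN d 7 * 100)

end Pool.Agent.H90Cyc
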