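import Pool.Agent.H90Cyc.Defs

/-!
Basic lemmas: pair sums over the edges inside a set, and path counts under deletion of leaves and
of closed sets.
-/

namespace Pool.Agent.H90Cyc

open Finset

variable {V : Type*} [DecidableEq V] (G : SimpleGraph V) [DecidableRel G.Adj]

/-- sum over the edges inside `S` of a symmetric function -/
noncomputable def PS (S : Finset V) (F : V → V → ℝ) : ℝ :=
  (1 / 2) * ∑ x ∈ S, ∑ y ∈ nb G S x, F x y

theorem nb_erase (S : Finset V) (u x : V) : nb G (S.erase u) x = (nb G S x).erase u := by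
  ext y; simp [nb]; tauto

theorem nb_erase_of_not {S : Finset V} {u x : V} (h : ¬ G.Adj x u) :
    nb G (S.erase u) x = nb G S x := by
  rw [nb_erase, Finset.erase_eq_of_notMem]
  rw [mem_nb]; exact fun hh => h hh.2

omit [DecidableEq V] in
theorem not_mem_nb_self (S : Finset V) (x : V) : x ∉ nb G S x := by
  rw [mem_nb]; exact fun h => G.loopless.irrefl x h.2

omit [DecidableEq V] in
theorem PS_congr {S : Finset V} {F F' : V → V → ℝ}
    (h : ∀ x ∈ S, ∀ y ∈ S, G.Adj x y → F x y = F' x y) : PS G S F = PS G S F' := by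
  unfold PS
  congr 1
  refine Finset.sum_congr rfl fun x hx => Finset.sum_congr rfl fun y hy => ?_
  rw [mem_nb] at hy
  exact h x hx y hy.1 hy.2

omit [DecidableEq V] in
theorem PS_nonneg {S : Finset V} {F : V → V → ℝ}
    (h : ∀ x ∈ S, ∀ y ∈ S, G.Adj x y → 0 ≤ F x y) : 0 ≤ PS G S F := by
  unfold PS
  refine mul_nonneg (by norm_num) ?_
  refine Finset.sum_nonneg fun x hx => Finset.sum_nonneg fun y hy => ?_
  rw [mem_nb] at hy
  exact h x hx y hy.1 hy.2

omit [DecidableEq V] in
theorem sum_nb_swap (S : Finset V) (H : V → V → ℝ) :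
    ∑ x ∈ S, ∑ y ∈ nb G S x, H y x = ∑ x ∈ S, ∑ y ∈ nb G S x, H x y := by
  apply Finset.sum_comm'
  intro x y
  simp only [mem_nb]
  constructor
  · rintro ⟨h1, h2, h3⟩; exact ⟨⟨h1, h3.symm⟩, h2⟩
  · rintro ⟨⟨h1, h3⟩, h2⟩; exact ⟨h1, h2, h3.symm⟩

theorem PS_erase {S : Finset V} {F : V → V → ℝ} (hF : ∀ x y, F x y = F y x) {u : V}
    (hu : u ∈ S) : PS G S F = PS G (S.erase u) F + ∑ y ∈ nb G S u, F u y := by
  unfold PS
  have h1 : ∑ x ∈ S, ∑ y ∈ nb G S x, F x y
      = ∑ x ∈ S.erase u, ∑ y ∈ nb G S x, F x y + ∑ y ∈ nb G S u, F u y :=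
    (Finset.sum_erase_add _ _ hu).symm
  have h2 : ∑ x ∈ S.erase u, ∑ y ∈ nb G S x, F x y
      = ∑ x ∈ S.erase u, ∑ y ∈ nb G (S.erase u) x, F x y + ∑ y ∈ nb G S u, F u y := by
    have h3 : ∀ x ∈ S.erase u, ∑ y ∈ nb G S x, F x y
        = ∑ y ∈ nb G (S.erase u) x, F x y + (if G.Adj u x then F u x else 0) := by
      intro x hx
      rw [nb_erase]
      by_cases h : G.Adj u x
      · rw [if_pos h, hF u x]
        exact (Finset.sum_erase_add _ _ ((mem_nb G).2 ⟨hu, h.symm⟩)).symm
      · rw [if_neg h, add_zero, Finset.erase_eq_of_notMem]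
        rw [mem_nb]; exact fun hh => h hh.2.symm
    rw [Finset.sum_congr rfl h3, Finset.sum_add_distrib]
    congr 1
    rw [← Finset.sum_filter]
    refine Finset.sum_congr ?_ fun _ _ => rfl
    ext y
    simp only [mem_filter, mem_erase, mem_nb]
    constructor
    · rintro ⟨⟨_, h2⟩, h3⟩; exact ⟨h2, h3⟩
    · rintro ⟨h2, h3⟩; exact ⟨⟨h3.ne', h2⟩, h3⟩
  rw [h1, h2]; ring

theorem PS_closed {S U : Finset V} {F : V → V → ℝ} (hU : U ⊆ S)
    (hcl : ∀ x ∈ U, ∀ y ∈ S, G.Adj x y → y ∈ U) :
    PS G S F = PS G (S \ U) F + PS G U F := by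
  unfold PS
  rw [← mul_add]
  congr 1
  rw [← Finset.sum_sdiff hU]
  congr 1
  · refine Finset.sum_congr rfl fun x hx => Finset.sum_congr ?_ fun _ _ => rfl
    ext y
    rw [mem_sdiff] at hx
    simp only [mem_nb, mem_sdiff]
    constructor
    · rintro ⟨h1, h2⟩
      exact ⟨⟨h1, fun hy => hx.2 (hcl y hy x hx.1 h2.symm)⟩, h2⟩
    · rintro ⟨⟨h1, _⟩, h2⟩; exact ⟨h1, h2⟩
  · refine Finset.sum_congr rfl fun x hx => Finset.sum_congr ?_ fun _ _ => rfl
    ext y
    simp only [mem_nb]
    constructor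
    · rintro ⟨h1, h2⟩; exact ⟨hcl x hx y h1 h2, h2⟩
    · rintro ⟨h1, h2⟩; exact ⟨hU h1, h2⟩

omit [DecidableEq V] in
/-- comparison of pair sums, with the difference attributed to one end -/
theorem PS_le_add {S : Finset V} {F F' H : V → V → ℝ}
    (h : ∀ x ∈ S, ∀ y ∈ S, G.Adj x y → F' x y ≤ F x y + (H x y + H y x)) :
    PS G S F' ≤ PS G S F + ∑ x ∈ S, ∑ y ∈ nb G S x, H x y := by
  have h1 : ∑ x ∈ S, ∑ y ∈ nb G S x, F' x y
      ≤ ∑ x ∈ S, ∑ y ∈ nb G S x, (F x y + (H x y + H y x)) := by
    refine Finset.sum_le_sum fun x hx => Finset.sum_le_sum fun y hy => ?_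
    rw [mem_nb] at hy
    exact h x hx y hy.1 hy.2
  simp only [Finset.sum_add_distrib] at h1
  have h2 := sum_nb_swap G S H
  unfold PS
  linarith

/-! ### path counts -/

theorem cnt_eq_zero_of_closed (t : V) (n : ℕ) : ∀ (T U : Finset V) (a : V), a ∈ U → t ∉ U →
    (∀ x ∈ U, ∀ y ∈ T, G.Adj x y → y ∈ U) → cnt G t n T a = 0 := by
  induction n with
  | zero => intro T U a _ _ _; rfl
  | succ n ih =>
    intro T U a ha ht hcl
    rw [cnt, if_neg (by rintro rfl; exact ht ha)]
    refine Finset.sum_eq_zero fun b hb => ?_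
    rw [mem_nb, mem_erase] at hb
    refine ih (T.erase a) U b (hcl a ha b hb.1.2 hb.2) ht fun x hx y hy hxy => ?_
    exact hcl x hx y (Finset.mem_of_mem_erase hy) hxy

theorem cnt_eq_of_closed (t : V) (n : ℕ) : ∀ (T U : Finset V) (a : V), a ∈ T → a ∉ U →
    (∀ x ∈ T, x ∉ U → ∀ y ∈ U, ¬ G.Adj x y) → cnt G t n T a = cnt G t n (T \ U) a := by
  induction n with
  | zero => intro T U a _ _ _; rfl
  | succ n ih =>
    intro T U a ha haU hcl
    rw [cnt, cnt]
    split_ifs with h
    · rfl
    have hset : nb G ((T \ U).erase a) a = nb G (T.erase a) a := by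
      ext y
      simp only [mem_nb, mem_erase, mem_sdiff]
      constructor
      · rintro ⟨⟨h1, h2, _⟩, h4⟩; exact ⟨⟨h1, h2⟩, h4⟩
      · rintro ⟨⟨h1, h2⟩, h4⟩
        exact ⟨⟨h1, h2, fun hy => hcl a ha haU y hy h4⟩, h4⟩
    rw [hset]
    refine Finset.sum_congr rfl fun b hb => ?_
    rw [mem_nb, mem_erase] at hb
    have hbU : b ∉ U := fun hy => hcl a ha haU b hy hb.2
    rw [ih (T.erase a) U b (Finset.mem_erase.2 hb.1) hbU
      (fun x hx hxU y hy => hcl x (Finset.mem_of_mem_erase hx) hxU y hy)]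
    congr 1
    ext y
    simp only [mem_erase, mem_sdiff]
    tauto

/-- deleting a closed set of `S \ v` which avoids the target -/
theorem cnt_le_sdiff (t : V) (n : ℕ) {S U : Finset V} {v : V} (ht : t ∉ U)
    (hcl : ∀ x ∈ U, ∀ y ∈ S.erase v, G.Adj x y → y ∈ U) :
    cnt G t n S v ≤ cnt G t n (S \ U) v := by
  cases n with
  | zero => exact le_rfl
  | succ n =>
    rw [cnt, cnt]
    split_ifs with h
    · exact le_rfl
    have h1 : ∀ a ∈ nb G (S.erase v) v, cnt G t n (S.erase v) a
        = if a ∈ U then 0 else cnt G t n ((S \ U).erase v) a := by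
      intro a ha
      rw [mem_nb] at ha
      split_ifs with haU
      · exact cnt_eq_zero_of_closed G t n _ U a haU ht hcl
      · rw [cnt_eq_of_closed G t n (S.erase v) U a ha.1 haU
          (fun x hx hxU y hy hxy => hxU (hcl y hy x hx hxy.symm))]
        congr 1
        ext y; simp only [mem_erase, mem_sdiff]; tauto
    rw [Finset.sum_congr rfl h1]
    calc ∑ a ∈ nb G (S.erase v) v, (if a ∈ U then 0 else cnt G t n ((S \ U).erase v) a)
        = ∑ a ∈ (nb G (S.erase v) v).filter (fun a => a ∉ U), cnt G t n ((S \ U).erase v) a := by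
          rw [Finset.sum_filter]
          refine Finset.sum_congr rfl fun a _ => ?_
          by_cases haU : a ∈ U <;> simp [haU]
      _ ≤ ∑ a ∈ nb G ((S \ U).erase v) v, cnt G t n ((S \ U).erase v) a := by
          refine Finset.sum_le_sum_of_subset_of_nonneg ?_ fun _ _ _ => Nat.zero_le _
          intro y hy
          simp only [mem_filter, mem_nb, mem_erase, mem_sdiff] at hy ⊢
          tauto

/-- deleting a vertex with at most one neighbour -/
theorem cnt_le_erase_leaf (t : V) (n : ℕ) : ∀ (S : Finset V) (v u : V), v ∈ S → u ≠ v → u ≠ t →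
    (nb G S u).card ≤ 1 → cnt G t n S v ≤ cnt G t n (S.erase u) v := by
  induction n with
  | zero => intro S v u _ _ _ _; exact le_rfl
  | succ n ih =>
    intro S v u hvS huv hut hu
    rw [cnt, cnt]
    split_ifs with h
    · exact le_rfl
    have hcard : ∀ x, (nb G (S.erase x) u).card ≤ 1 := fun x => by
      rw [nb_erase]; exact le_trans (Finset.card_erase_le) hu
    have h1 : ∀ a ∈ nb G (S.erase v) v, cnt G t n (S.erase v) a
        ≤ if a = u then 0 else cnt G t n ((S.erase u).erase v) a := by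
      intro a ha
      split_ifs with hau
      · subst hau
        rw [mem_nb, mem_erase] at ha
        have hmem : v ∈ nb G S a := (mem_nb G).2 ⟨hvS, ha.2.symm⟩
        have hnb : nb G (S.erase v) a = ∅ := by
          rw [nb_erase]
          rw [Finset.card_le_one] at hu
          ext y
          simp only [mem_erase, Finset.notMem_empty, iff_false, not_and]
          intro hy hy'
          exact hy (hu y hy' v hmem)
        cases n with
        | zero => exact le_rfl
        | succ n =>
          rw [cnt, if_neg hut]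
          refine le_of_eq (Finset.sum_eq_zero fun b hb => ?_)
          exfalso
          rw [nb_erase, hnb] at hb
          simp at hb
      · rw [Finset.erase_right_comm]
        rw [mem_nb] at ha
        exact ih _ _ _ ha.1 (fun hh => hau hh.symm) hut (hcard v)
    refine le_trans (Finset.sum_le_sum h1) ?_
    calc ∑ a ∈ nb G (S.erase v) v, (if a = u then 0 else cnt G t n ((S.erase u).erase v) a)
        = ∑ a ∈ (nb G (S.erase v) v).filter (fun a => a ≠ u),
            cnt G t n ((S.erase u).erase v) a := by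
          rw [Finset.sum_filter]
          refine Finset.sum_congr rfl fun a _ => ?_
          by_cases hau : a = u <;> simp [hau]
      _ ≤ ∑ a ∈ nb G ((S.erase u).erase v) v, cnt G t n ((S.erase u).erase v) a := by
          refine Finset.sum_le_sum_of_subset_of_nonneg ?_ fun _ _ _ => Nat.zero_le _
          intro y hy
          simp only [mem_filter, mem_nb, mem_erase] at hy ⊢
          tauto

end Pool.Agent.H90Cyc
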