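import Pool.Agent.H90Cyc.PotA

/-!
The potential `W` and its monotonicity under deletion of a leaf.
-/

namespace Pool.Agent.H90Cyc

open Finset

variable {V : Type*} [DecidableEq V] (G : SimpleGraph V) [DecidableRel G.Adj]

/-- degree inside `S` -/
def dg (S : Finset V) (x : V) : ℕ := (nb G S x).card

/-- The class of a vertex: its degree inside `S`, capped at `K + 1`; the target has class
`K + 1`. -/
def kk (K : ℕ) (t : V) (S : Finset V) (x : V) : ℕ := if x = t then K + 1 else min (dg G S x) (K + 1)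

/-- non-leaf neighbours of `v` -/
def AA (K : ℕ) (t : V) (S : Finset V) (v : V) : Finset V :=
  (nb G S v).filter (fun a => kk G K t S a ≠ 1)

/-- the potential of the state `(S, v)` -/
noncomputable def WW (K : ℕ) (f q : ℕ → ℕ → ℝ) (t : V) (S : Finset V) (v : V) : ℝ :=
  PS G (S.erase v) (fun x y => f (kk G K t S x) (kk G K t S y)) +
    ∑ a ∈ AA G K t S v, q (AA G K t S v).card (kk G K t S a)

/-- the potential without a current vertex -/
noncomputable def W0 (K : ℕ) (f : ℕ → ℕ → ℝ) (t : V) (S : Finset V) : ℝ :=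
  PS G S (fun x y => f (kk G K t S x) (kk G K t S y))

/-- every vertex of `S` is connected to the target inside `S` -/
def Conn (t : V) (S : Finset V) : Prop :=
  ∀ U ⊆ S, U.Nonempty → t ∉ U → ∃ x ∈ U, ∃ y ∈ S, y ∉ U ∧ G.Adj x y

/-- The conditions on the tables `f`, `q`, `β`. -/
structure Good (K : ℕ) (f q : ℕ → ℕ → ℝ) (β : ℕ → ℕ → ℕ → ℝ) : Prop where
  K2 : 2 ≤ K
  fsymm : ∀ k l, f k l = f l k
  fK : ∀ l, f (K + 1) l = f K l
  fnn : ∀ k l, 2 ≤ k → k ≤ K + 1 → 2 ≤ l → l ≤ K + 1 → 0 ≤ f k l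
  f1K : 0 ≤ f 1 K
  leaf : ∀ k, 2 ≤ k → k ≤ K → ∀ y, 1 ≤ y → y ≤ K + 1 → ∀ y', 2 ≤ y' → y' ≤ K + 1 →
    0 ≤ f 1 k + ((k : ℝ) - 2) * (f k y - f (k - 1) y) + (f k y' - f (k - 1) y')
  leafv : ∀ d, 1 ≤ d → ∀ k, 3 ≤ k → k ≤ K → ∀ y, 1 ≤ y → y ≤ K + 1 →
    0 ≤ f 1 k + ((k : ℝ) - 2) * (f k y - f (k - 1) y) + (q d k - q d (k - 1))
  leafvK : ∀ d, 1 ≤ d → 0 ≤ f 1 K + (q d (K + 1) - q d K)
  leafv2 : ∀ d, 2 ≤ d → ∀ y, 2 ≤ y → y ≤ K + 1 →
    0 ≤ f 1 2 + q d 2 + ((d : ℝ) - 1) * (q d y - q (d - 1) y)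
  comp : ∀ d, 2 ≤ d → ∀ k, 2 ≤ k → k ≤ K + 1 → ∀ y, 2 ≤ y → y ≤ K + 1 →
    0 ≤ q d k + ((d : ℝ) - 1) * (q d y - q (d - 1) y)
  tri : ∀ d, 2 ≤ d → ∀ k, 2 ≤ k → k ≤ K → ∀ l, 2 ≤ l → l ≤ K →
    f (k - 1) (l - 1) - f k l ≤ β d k l + β d l k

variable {K : ℕ} {f q : ℕ → ℕ → ℝ} {β : ℕ → ℕ → ℕ → ℝ} {t : V}

theorem kk_le (S : Finset V) (x : V) : kk G K t S x ≤ K + 1 := by
  unfold kk; split_ifs <;> simp

theorem kk_t (S : Finset V) : kk G K t S t = K + 1 := by simp [kk]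

theorem kk_of_le {S : Finset V} {x : V} (hx : x ≠ t) (h : dg G S x ≤ K) :
    kk G K t S x = dg G S x := by
  unfold kk; rw [if_neg hx]; omega

theorem kk_of_ge {S : Finset V} {x : V} (hx : x ≠ t) (h : K + 1 ≤ dg G S x) :
    kk G K t S x = K + 1 := by
  unfold kk; rw [if_neg hx]; omega

theorem dg_eq_one_of_kk (hK : 2 ≤ K) {S : Finset V} {x : V} (h : kk G K t S x = 1) :
    x ≠ t ∧ dg G S x = 1 := by
  unfold kk at h
  split_ifs at h with h1
  · omega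
  · exact ⟨h1, by omega⟩

theorem f_cap (hg : Good K f q β) {k : ℕ} (hk : K ≤ k) (hk' : k ≤ K + 1) (l : ℕ) :
    f k l = f K l := by
  rcases Nat.lt_or_ge k (K + 1) with h | h
  · rw [show k = K by omega]
  · rw [show k = K + 1 by omega]; exact hg.fK l

/-- a vertex which is not the target has a non-leaf neighbour, outside a given set whose
neighbours are controlled -/
theorem exists_nonleaf (hK : 2 ≤ K) {S : Finset V} (hc : Conn G t S) {z : V} (hz : z ∈ S)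
    (hzt : z ≠ t) (E : Finset V) (hE : E ⊆ S) (htE : t ∉ E)
    (hE2 : ∀ x ∈ E, ∀ y ∈ S, G.Adj x y → y ∈ E ∨ y = z) :
    ∃ y ∈ nb G S z, y ∉ E ∧ kk G K t S y ≠ 1 := by
  set L := (nb G S z).filter (fun a => kk G K t S a = 1) with hL
  set U := insert z (E ∪ L) with hU
  have hUS : U ⊆ S := by
    intro x hx
    rw [hU, mem_insert, mem_union] at hx
    rcases hx with rfl | hx | hx
    · exact hz
    · exact hE hx
    · exact ((mem_nb G).1 (Finset.mem_filter.1 hx).1).1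
  have htU : t ∉ U := by
    rw [hU, mem_insert, mem_union]
    rintro (h | h | h)
    · exact hzt h.symm
    · exact htE h
    · have := (Finset.mem_filter.1 h).2
      rw [kk_t] at this; omega
  obtain ⟨x, hx, y, hyS, hyU, hxy⟩ := hc U hUS ⟨z, by simp [hU]⟩ htU
  have hyU' : y ≠ z ∧ y ∉ E ∧ y ∉ L := by
    rw [hU, mem_insert, mem_union] at hyU; tauto
  rw [hU, mem_insert, mem_union] at hx
  rcases hx with rfl | hx | hx
  · have hynb : y ∈ nb G S x := (mem_nb G).2 ⟨hyS, hxy⟩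
    refine ⟨y, hynb, hyU'.2.1, fun h1 => hyU'.2.2 ?_⟩
    rw [hL]; exact Finset.mem_filter.2 ⟨hynb, h1⟩
  · rcases hE2 x hx y hyS hxy with h | h
    · exact absurd h hyU'.2.1
    · exact absurd h hyU'.1
  · exfalso
    rw [hL, Finset.mem_filter] at hx
    obtain ⟨hx1, hx2⟩ := hx
    obtain ⟨_, hdg⟩ := dg_eq_one_of_kk G hK hx2
    rw [mem_nb] at hx1
    have hzx : z ∈ nb G S x := (mem_nb G).2 ⟨hz, hx1.2.symm⟩
    have hyx : y ∈ nb G S x := (mem_nb G).2 ⟨hyS, hxy⟩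
    have := Finset.card_le_one.1 (le_of_eq hdg) y hyx z hzx
    exact hyU'.1 this

theorem Conn.erase_leaf {S : Finset V} (hc : Conn G t S) {u : V} (hut : u ≠ t)
    (hu : (nb G S u).card ≤ 1) : Conn G t (S.erase u) := by
  intro U hU hne htU
  have hUS : U ⊆ S := fun x hx => Finset.mem_of_mem_erase (hU hx)
  obtain ⟨x, hx, y, hyS, hyU, hxy⟩ := hc U hUS hne htU
  by_cases hyu : y = u
  · subst hyu
    have htU' : t ∉ insert y U := by
      rw [mem_insert]; rintro (h | h)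
      · exact hut h.symm
      · exact htU h
    obtain ⟨x', hx', y', hy'S, hy'U, hxy'⟩ := hc (insert y U)
      (Finset.insert_subset hyS hUS) ⟨y, by simp⟩ htU'
    rw [mem_insert, not_or] at hy'U
    rw [mem_insert] at hx'
    rcases hx' with rfl | hx'
    · exfalso
      have h1 : x ∈ nb G S x' := (mem_nb G).2 ⟨hUS hx, hxy.symm⟩
      have h2 : y' ∈ nb G S x' := (mem_nb G).2 ⟨hy'S, hxy'⟩
      have := Finset.card_le_one.1 hu _ h1 _ h2
      exact hy'U.2 (this ▸ hx)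
    · exact ⟨x', hx', y', Finset.mem_erase.2 ⟨hy'U.1, hy'S⟩, hy'U.2, hxy'⟩
  · exact ⟨x, hx, y, Finset.mem_erase.2 ⟨hyu, hyS⟩, hyU, hxy⟩

omit [DecidableRel G.Adj] in
/-- removing a closed set keeps connectivity -/
theorem Conn.sdiff {S U : Finset V} (hc : Conn G t S) {v : V} (htU : t ∉ U)
    (hU : U ⊆ S.erase v)
    (hcl : ∀ x ∈ U, ∀ y ∈ S.erase v, G.Adj x y → y ∈ U) : Conn G t (S \ U) := by
  intro U' hU' hne htU'
  have hU'S : U' ⊆ S := fun x hx => (Finset.mem_sdiff.1 (hU' hx)).1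
  have hUS : U ⊆ S := fun x hx => Finset.mem_of_mem_erase (hU hx)
  by_cases hv : v ∈ U'
  · obtain ⟨x, hx, y, hyS, hyU, hxy⟩ := hc (U' ∪ U) (Finset.union_subset hU'S hUS)
      (hne.mono Finset.subset_union_left) (by rw [mem_union]; tauto)
    rw [mem_union, not_or] at hyU
    rw [mem_union] at hx
    rcases hx with hx | hx
    · exact ⟨x, hx, y, Finset.mem_sdiff.2 ⟨hyS, hyU.2⟩, hyU.1, hxy⟩
    · exfalso
      refine hyU.2 (hcl x hx y (Finset.mem_erase.2 ⟨?_, hyS⟩) hxy)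
      rintro rfl
      exact hyU.1 hv
  · obtain ⟨x, hx, y, hyS, hyU, hxy⟩ := hc U' hU'S hne htU'
    refine ⟨x, hx, y, Finset.mem_sdiff.2 ⟨hyS, fun hyU2 => ?_⟩, hyU, hxy⟩
    have hx1 := Finset.mem_sdiff.1 (hU' hx)
    refine hx1.2 (hcl y hyU2 x (Finset.mem_erase.2 ⟨?_, hx1.1⟩) hxy.symm)
    rintro rfl
    exact hv hx

end Pool.Agent.H90Cyc
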