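import Pool.Agent.H90Cyc.PotB

/-!
Deletion of a leaf does not increase the potential.
-/

namespace Pool.Agent.H90Cyc

open Finset

variable {V : Type*} [DecidableEq V] (G : SimpleGraph V) [DecidableRel G.Adj]
variable {K : ℕ} {f q : ℕ → ℕ → ℝ} {β : ℕ → ℕ → ℕ → ℝ} {t : V}

theorem avg_nonneg {ι : Type*} (N : Finset ι) (c : ℝ) (δ : ι → ℝ)
    (h : ∀ y ∈ N, 0 ≤ c + (N.card : ℝ) * δ y) (h0 : N = ∅ → 0 ≤ c) :
    0 ≤ c + ∑ y ∈ N, δ y := by
  rcases N.eq_empty_or_nonempty with hN | hN
  · subst hN; simpa using h0 rfl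
  · have hpos : (0 : ℝ) < N.card := by exact_mod_cast Finset.card_pos.2 hN
    have h1 : 0 ≤ ∑ y ∈ N, (c + (N.card : ℝ) * δ y) := Finset.sum_nonneg h
    rw [Finset.sum_add_distrib, Finset.sum_const, nsmul_eq_mul, ← Finset.mul_sum,
      ← mul_add] at h1
    exact nonneg_of_mul_nonneg_right h1 hpos

theorem kk_erase_of_not {S : Finset V} {u y : V} (h : ¬ G.Adj y u) :
    kk G K t (S.erase u) y = kk G K t S y := by
  unfold kk dg; rw [nb_erase_of_not G h]

theorem dg_erase_of_adj {S : Finset V} {u y : V} (hu : u ∈ S) (h : G.Adj y u) :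
    dg G (S.erase u) y = dg G S y - 1 := by
  unfold dg; rw [nb_erase, Finset.card_erase_of_mem ((mem_nb G).2 ⟨hu, h⟩)]

theorem kk_pos {S : Finset V} {x y : V} (hx : x ∈ S) (h : G.Adj y x) :
    1 ≤ kk G K t S y := by
  have : 0 < dg G S y := Finset.card_pos.2 ⟨x, (mem_nb G).2 ⟨hx, h⟩⟩
  unfold kk; split_ifs <;> omega

/-- change of a pair sum when a leaf `u` with neighbour `x` is deleted -/
theorem leaf_PS (hg : Good K f q β) {S R : Finset V} (hR : R ⊆ S) {u x : V} (hu : u ∈ R)
    (hxR : x ∈ R) (hux : nb G S u = {x}) :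
    PS G R (fun a b => f (kk G K t S a) (kk G K t S b))
      = PS G (R.erase u) (fun a b => f (kk G K t (S.erase u) a) (kk G K t (S.erase u) b))
        + (f (kk G K t S u) (kk G K t S x) + ∑ y ∈ nb G (R.erase u) x,
          (f (kk G K t S x) (kk G K t S y) - f (kk G K t (S.erase u) x) (kk G K t S y))) := by
  have hadj : G.Adj u x := by
    have : x ∈ nb G S u := by rw [hux]; simp
    exact ((mem_nb G).1 this).2
  have hnadj : ∀ y ∈ S, y ≠ x → ¬ G.Adj y u := by
    intro y hy hyx h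
    have : y ∈ nb G S u := (mem_nb G).2 ⟨hy, h.symm⟩
    rw [hux, mem_singleton] at this
    exact hyx this
  have hnbR : nb G R u = {x} := by
    ext y
    rw [mem_nb, mem_singleton]
    constructor
    · rintro ⟨h1, h2⟩
      have : y ∈ nb G S u := (mem_nb G).2 ⟨hR h1, h2⟩
      rwa [hux, mem_singleton] at this
    · rintro rfl; exact ⟨hxR, hadj⟩
  have hxT : x ∈ R.erase u := Finset.mem_erase.2 ⟨hadj.ne', hxR⟩
  rw [PS_erase G (fun a b => hg.fsymm _ _) hu, hnbR, Finset.sum_singleton]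
  rw [PS_erase G (S := R.erase u) (F := fun a b => f (kk G K t S a) (kk G K t S b))
    (fun a b => hg.fsymm _ _) hxT]
  rw [PS_erase G (S := R.erase u)
    (F := fun a b => f (kk G K t (S.erase u) a) (kk G K t (S.erase u) b))
    (fun a b => hg.fsymm _ _) hxT]
  have h1 : PS G ((R.erase u).erase x) (fun a b => f (kk G K t S a) (kk G K t S b))
      = PS G ((R.erase u).erase x)
        (fun a b => f (kk G K t (S.erase u) a) (kk G K t (S.erase u) b)) := by
    refine PS_congr G fun a ha b hb _ => ?_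
    rw [mem_erase, mem_erase] at ha hb
    rw [kk_erase_of_not G (hnadj a (hR ha.2.2) ha.1), kk_erase_of_not G (hnadj b (hR hb.2.2) hb.1)]
  have h2 : ∑ y ∈ nb G (R.erase u) x, f (kk G K t (S.erase u) x) (kk G K t (S.erase u) y)
      = ∑ y ∈ nb G (R.erase u) x, f (kk G K t (S.erase u) x) (kk G K t S y) := by
    refine Finset.sum_congr rfl fun y hy => ?_
    rw [mem_nb, mem_erase] at hy
    rw [kk_erase_of_not G (hnadj y (hR hy.1.2) hy.2.ne')]
  rw [h1, h2, Finset.sum_sub_distrib]
  ring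

theorem f_one_cap (hg : Good K f q β) : f 1 (K + 1) = f 1 K := by
  rw [hg.fsymm 1 (K + 1), hg.fK, hg.fsymm K 1]

/-- the neighbour of the leaf is of class at least `K` after the deletion: nothing changes -/
theorem leaf_big (hg : Good K f q β) {S : Finset V} {u x : V} (huS : u ∈ S)
    (hadj : G.Adj x u) (hbig : x = t ∨ K + 1 ≤ dg G S x) :
    kk G K t S x = K + 1 ∧ K ≤ kk G K t (S.erase u) x ∧ ∀ l, f (kk G K t S x) l
      = f (kk G K t (S.erase u) x) l := by
  have h1 : kk G K t S x = K + 1 := by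
    rcases hbig with rfl | h
    · exact kk_t G S
    · unfold kk; split_ifs <;> omega
  have h2 : K ≤ kk G K t (S.erase u) x := by
    rcases hbig with rfl | h
    · rw [kk_t]; omega
    · have := dg_erase_of_adj G huS hadj
      unfold kk; split_ifs <;> omega
  refine ⟨h1, h2, fun l => ?_⟩
  rw [h1, hg.fK, f_cap hg h2 (kk_le G _ _)]

theorem W0_erase_leaf (hg : Good K f q β) {S : Finset V} (hc : Conn G t S) {u : V}
    (hu : u ∈ S) (hut : u ≠ t) (hdg : dg G S u = 1) :
    W0 G K f t (S.erase u) ≤ W0 G K f t S := by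
  obtain ⟨x, hux⟩ := Finset.card_eq_one.1 hdg
  have hxnb : x ∈ nb G S u := by rw [hux]; simp
  obtain ⟨hxS, hadj⟩ := (mem_nb G).1 hxnb
  have hK := hg.K2
  unfold W0
  rw [leaf_PS G hg (Finset.Subset.refl S) hu hxS hux]
  have hku : kk G K t S u = 1 := by rw [kk_of_le G hut (by omega), hdg]
  rw [hku]
  suffices h : 0 ≤ f 1 (kk G K t S x) + ∑ y ∈ nb G (S.erase u) x,
      (f (kk G K t S x) (kk G K t S y) - f (kk G K t (S.erase u) x) (kk G K t S y)) by linarith
  by_cases hbig : x = t ∨ K + 1 ≤ dg G S x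
  · obtain ⟨h1, _, h3⟩ := leaf_big G hg hu hadj.symm hbig
    rw [Finset.sum_eq_zero fun y _ => by rw [h3]; ring]
    rw [h1, f_one_cap hg, add_zero]; exact hg.f1K
  · push Not at hbig
    obtain ⟨hxt, hlt⟩ := hbig
    obtain ⟨y0, hy0, _, hy0k⟩ := exists_nonleaf G hK hc hxS hxt ∅ (by simp) (by simp) (by simp)
    have hy0' := (mem_nb G).1 hy0
    have hy0u : y0 ≠ u := by rintro rfl; exact hy0k hku
    have hcard : (nb G (S.erase u) x).card = dg G S x - 1 := dg_erase_of_adj G hu hadj.symm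
    have hy0M : y0 ∈ nb G (S.erase u) x :=
      (mem_nb G).2 ⟨Finset.mem_erase.2 ⟨hy0u, hy0'.1⟩, hy0'.2⟩
    have h2 : 2 ≤ dg G S x := by
      have := Finset.card_pos.2 ⟨y0, hy0M⟩
      omega
    have hkx : kk G K t S x = dg G S x := kk_of_le G hxt (by omega)
    have hkx' : kk G K t (S.erase u) x = dg G S x - 1 := by
      rw [kk_of_le G hxt (by rw [dg_erase_of_adj G hu hadj.symm]; omega),
        dg_erase_of_adj G hu hadj.symm]
    rw [hkx, hkx']
    set k := dg G S x with hk
    rw [← Finset.add_sum_erase _ _ hy0M, ← add_assoc]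
    have hcard2 : (((nb G (S.erase u) x).erase y0).card : ℝ) = (k : ℝ) - 2 := by
      rw [Finset.card_erase_of_mem hy0M, hcard]
      rw [show k - 1 - 1 = k - 2 by omega, Nat.cast_sub h2]; norm_num
    have hy0c : 2 ≤ kk G K t S y0 := by
      have := kk_pos G (K := K) (t := t) hxS hy0'.2.symm
      omega
    refine avg_nonneg _ _ _ (fun y hy => ?_) (fun he => ?_)
    · rw [hcard2]
      have hy1 := (mem_nb G).1 (Finset.mem_of_mem_erase hy)
      have := hg.leaf k h2 (by omega) (kk G K t S y) (kk_pos G hxS hy1.2.symm) (kk_le G _ _)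
        (kk G K t S y0) hy0c (kk_le G _ _)
      linarith
    · have hk2 : k = 2 := by
        have : ((nb G (S.erase u) x).erase y0).card = 0 := by rw [he]; rfl
        rw [Finset.card_erase_of_mem hy0M, hcard] at this
        omega
      have := hg.leaf 2 le_rfl hK 1 le_rfl (by omega) (kk G K t S y0) hy0c (kk_le G _ _)
      rw [hk2]
      norm_num at this ⊢
      linarith

end Pool.Agent.H90Cyc
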