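import Pool.Agent.H90Cyc.PotC

/-!
Deletion of a leaf does not increase the potential of a state.
-/

namespace Pool.Agent.H90Cyc

open Finset

variable {V : Type*} [DecidableEq V] (G : SimpleGraph V) [DecidableRel G.Adj]
variable {K : ℕ} {f q : ℕ → ℕ → ℝ} {β : ℕ → ℕ → ℕ → ℝ} {t : V}

theorem kk_ge_two_of_mem_AA {S : Finset V} {v a : V} (hv : v ∈ S) (ha : a ∈ AA G K t S v) :
    2 ≤ kk G K t S a := by
  unfold AA at ha
  rw [mem_filter, mem_nb] at ha
  have := kk_pos G (K := K) (t := t) hv ha.1.2.symm
  omega

theorem WW_erase_leaf (hg : Good K f q β) {S : Finset V} (hc : Conn G t S) {u v : V}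
    (hv : v ∈ S) (hvt : v ≠ t) (huv : u ≠ v)
    (hu : u ∈ S) (hut : u ≠ t) (hdg : dg G S u = 1) :
    WW G K f q t (S.erase u) v ≤ WW G K f q t S v := by
  obtain ⟨x, hux⟩ := Finset.card_eq_one.1 hdg
  have hxnb : x ∈ nb G S u := by rw [hux]; simp
  obtain ⟨hxS, hadj⟩ := (mem_nb G).1 hxnb
  have hK := hg.K2
  have hku : kk G K t S u = 1 := by rw [kk_of_le G hut (by omega), hdg]
  have hnadj : ∀ y ∈ S, y ≠ x → ¬ G.Adj y u := by
    intro y hy hyx h
    have : y ∈ nb G S u := (mem_nb G).2 ⟨hy, h.symm⟩
    rw [hux, mem_singleton] at this
    exact hyx this
  unfold WW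
  by_cases hxv : x = v
  · -- the leaf hangs at `v`
    subst hxv
    have hA : AA G K t (S.erase u) x = AA G K t S x := by
      unfold AA
      ext a
      simp only [mem_filter]
      rw [nb_erase, mem_erase]
      constructor
      · rintro ⟨⟨h1, h2⟩, h3⟩
        refine ⟨h2, ?_⟩
        rw [mem_nb] at h2
        rwa [kk_erase_of_not G (hnadj a h2.1 h2.2.ne')] at h3
      · rintro ⟨h1, h2⟩
        have h1' := (mem_nb G).1 h1
        have hau : a ≠ u := by rintro rfl; exact h2 hku
        refine ⟨⟨hau, h1⟩, ?_⟩
        rwa [kk_erase_of_not G (hnadj a h1'.1 h1'.2.ne')]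
    rw [hA]
    have hQ : ∑ a ∈ AA G K t S x, q (AA G K t S x).card (kk G K t (S.erase u) a)
        = ∑ a ∈ AA G K t S x, q (AA G K t S x).card (kk G K t S a) := by
      refine Finset.sum_congr rfl fun a ha => ?_
      unfold AA at ha
      rw [mem_filter, mem_nb] at ha
      rw [kk_erase_of_not G (hnadj a ha.1.1 ha.1.2.ne')]
    rw [hQ]
    have huR : u ∈ S.erase x := Finset.mem_erase.2 ⟨huv, hu⟩
    rw [PS_erase G (S := S.erase x) (fun a b => hg.fsymm _ _) huR]
    have hemp : nb G (S.erase x) u = ∅ := by rw [nb_erase, hux]; simp
    rw [hemp, Finset.sum_empty, add_zero, Finset.erase_right_comm]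
    refine le_of_eq ?_
    congr 1
    refine PS_congr G fun a ha b hb _ => ?_
    rw [mem_erase, mem_erase] at ha hb
    rw [kk_erase_of_not G (hnadj a ha.2.2 ha.2.1), kk_erase_of_not G (hnadj b hb.2.2 hb.2.1)]
  · -- the leaf hangs at `x ≠ v`
    have huR : u ∈ S.erase v := Finset.mem_erase.2 ⟨huv, hu⟩
    have hxR : x ∈ S.erase v := Finset.mem_erase.2 ⟨hxv, hxS⟩
    rw [leaf_PS G hg (Finset.erase_subset v S) huR hxR hux, Finset.erase_right_comm, hku]
    have hvu : ¬ G.Adj v u := hnadj v hv (fun h => hxv h.symm)
    have hnbv : nb G (S.erase u) v = nb G S v := nb_erase_of_not G hvu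
    have hkkother : ∀ a ∈ nb G S v, a ≠ x → kk G K t (S.erase u) a = kk G K t S a := by
      intro a ha hax
      exact kk_erase_of_not G (hnadj a ((mem_nb G).1 ha).1 hax)
    -- the sum over the other neighbours of `x`
    set M := nb G ((S.erase v).erase u) x with hM
    by_cases hbig : x = t ∨ K + 1 ≤ dg G S x
    · obtain ⟨h1, h2, h3⟩ := leaf_big G hg hu hadj.symm hbig
      have hz : ∑ y ∈ M, (f (kk G K t S x) (kk G K t S y)
          - f (kk G K t (S.erase u) x) (kk G K t S y)) = 0 :=
        Finset.sum_eq_zero fun y _ => by rw [h3]; ring
      rw [hz, h1, f_one_cap hg, add_zero]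
      -- the sets `AA` agree
      have hA : AA G K t (S.erase u) v = AA G K t S v := by
        unfold AA
        rw [hnbv]
        refine Finset.filter_congr fun a ha => ?_
        by_cases hax : a = x
        · subst hax
          have : kk G K t (S.erase u) a ≠ 1 := by omega
          have h1' : kk G K t S a ≠ 1 := by omega
          simp [this, h1']
        · rw [hkkother a ha hax]
      rw [hA]
      set A := AA G K t S v with hAdef
      by_cases hxA : x ∈ A
      · rw [← Finset.add_sum_erase A _ hxA, ← Finset.add_sum_erase A (fun a => q A.card
          (kk G K t S a)) hxA]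
        have hrest : ∑ a ∈ A.erase x, q A.card (kk G K t (S.erase u) a)
            = ∑ a ∈ A.erase x, q A.card (kk G K t S a) := by
          refine Finset.sum_congr rfl fun a ha => ?_
          rw [mem_erase] at ha
          rw [hkkother a (Finset.mem_filter.1 ha.2).1 ha.1]
        rw [hrest, h1]
        have hd : 1 ≤ A.card := Finset.card_pos.2 ⟨x, hxA⟩
        rcases Nat.lt_or_ge (kk G K t (S.erase u) x) (K + 1) with h | h
        · have : kk G K t (S.erase u) x = K := by omega
          rw [this]
          have := hg.leafvK A.card hd
          linarith
        · have : kk G K t (S.erase u) x = K + 1 := by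
            have := kk_le G (K := K) (t := t) (S.erase u) x
            omega
          rw [this]
          have := hg.f1K
          linarith
      · have : ∑ a ∈ A, q A.card (kk G K t (S.erase u) a) = ∑ a ∈ A, q A.card (kk G K t S a) := by
          refine Finset.sum_congr rfl fun a ha => ?_
          rw [hkkother a (Finset.mem_filter.1 ha).1 (fun h => hxA (h ▸ ha))]
        rw [this]
        have := hg.f1K
        linarith
    · push Not at hbig
      obtain ⟨hxt, hlt⟩ := hbig
      have hkx : kk G K t S x = dg G S x := kk_of_le G hxt (by omega)
      have hkx' : kk G K t (S.erase u) x = dg G S x - 1 := by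
        rw [kk_of_le G hxt (by rw [dg_erase_of_adj G hu hadj.symm]; omega),
          dg_erase_of_adj G hu hadj.symm]
      have hux' : u ∈ nb G S x := (mem_nb G).2 ⟨hu, hadj.symm⟩
      rw [hkx, hkx']
      by_cases hvx : G.Adj v x
      · -- `x` is a neighbour of `v`
        have hvx' : v ∈ nb G S x := (mem_nb G).2 ⟨hv, hvx.symm⟩
        have hcardM : M.card = dg G S x - 2 := by
          rw [hM, nb_erase, nb_erase, Finset.card_erase_of_mem
            (Finset.mem_erase.2 ⟨huv, hux'⟩), Finset.card_erase_of_mem hvx']
          rfl
        have h2 : 2 ≤ dg G S x := by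
          have : ({u, v} : Finset V).card ≤ (nb G S x).card := by
            refine Finset.card_le_card ?_
            intro y hy
            rw [mem_insert, mem_singleton] at hy
            rcases hy with rfl | rfl
            · exact hux'
            · exact hvx'
          rwa [Finset.card_pair huv] at this
        have hxv' : x ∈ nb G S v := (mem_nb G).2 ⟨hxS, hvx⟩
        have hxA : x ∈ AA G K t S v := Finset.mem_filter.2 ⟨hxv', by rw [hkx]; omega⟩
        rcases Nat.lt_or_ge (dg G S x) 3 with h3 | h3
        · -- degree two: `x` becomes a leaf at `v`
          have hd2 : dg G S x = 2 := by omega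
          have hMe : M = ∅ := by rw [← Finset.card_eq_zero, hcardM, hd2]
          have hA : AA G K t (S.erase u) v = (AA G K t S v).erase x := by
            unfold AA
            ext a
            rw [mem_erase, mem_filter, mem_filter, hnbv]
            by_cases hax : a = x
            · subst hax
              rw [hkx', hd2]; simp
            · constructor
              · rintro ⟨ha, hk⟩
                exact ⟨hax, ha, by rwa [hkkother a ha hax] at hk⟩
              · rintro ⟨_, ha, hk⟩
                exact ⟨ha, by rwa [hkkother a ha hax]⟩
          rw [hMe, Finset.sum_empty, add_zero, hA]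
          set A := AA G K t S v with hAdef
          have hnbx : ∀ y ∈ S, G.Adj x y → y ∈ ({x, u} : Finset V) ∨ y = v := by
            intro y hy hxy
            by_contra hcon
            push Not at hcon
            rw [mem_insert, mem_singleton, not_or] at hcon
            have hyM : y ∈ M := by
              rw [hM, mem_nb, mem_erase, mem_erase]
              exact ⟨⟨hcon.1.2, hcon.2, hy⟩, hxy⟩
            rw [hMe] at hyM; simp at hyM
          obtain ⟨b, hb, hbE, hbk⟩ := exists_nonleaf G hK hc hv hvt {x, u}
            (by intro y hy; rw [mem_insert, mem_singleton] at hy; rcases hy with rfl | rfl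
                · exact hxS
                · exact hu)
            (by rw [mem_insert, mem_singleton]; rintro (h | h)
                · exact hxt h.symm
                · exact hut h.symm)
            (by
              intro y hy z hz hyz
              rw [mem_insert, mem_singleton] at hy
              rcases hy with rfl | rfl
              · exact hnbx z hz hyz
              · left
                have : z ∈ nb G S y := (mem_nb G).2 ⟨hz, hyz⟩
                rw [hux, mem_singleton] at this
                rw [this]; simp)
          rw [mem_insert, mem_singleton, not_or] at hbE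
          have hbA : b ∈ A.erase x := Finset.mem_erase.2 ⟨hbE.1, Finset.mem_filter.2 ⟨hb, hbk⟩⟩
          have hcA : (A.erase x).card = A.card - 1 := Finset.card_erase_of_mem hxA
          have hd : 2 ≤ A.card := by
            have := Finset.card_pos.2 ⟨b, hbA⟩
            omega
          rw [← Finset.add_sum_erase A _ hxA, hkx, hd2, hcA]
          have hrest : ∑ a ∈ A.erase x, q (A.card - 1) (kk G K t (S.erase u) a)
              = ∑ a ∈ A.erase x, q (A.card - 1) (kk G K t S a) := by
            refine Finset.sum_congr rfl fun a ha => ?_
            rw [mem_erase] at ha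
            rw [hkkother a (Finset.mem_filter.1 ha.2).1 ha.1]
          rw [hrest]
          have hav : 0 ≤ (f 1 2 + q A.card 2) + ∑ a ∈ A.erase x,
              (q A.card (kk G K t S a) - q (A.card - 1) (kk G K t S a)) := by
            refine avg_nonneg _ _ _ (fun y hy => ?_) (fun he => ?_)
            · rw [hcA, Nat.cast_sub (by omega), Nat.cast_one]
              have := hg.leafv2 A.card hd (kk G K t S y)
                (kk_ge_two_of_mem_AA G hv (Finset.mem_of_mem_erase hy)) (kk_le G _ _)
              linarith
            · rw [he] at hbA; simp at hbA
          rw [Finset.sum_sub_distrib] at hav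
          linarith
        · -- degree at least three
          have hA : AA G K t (S.erase u) v = AA G K t S v := by
            unfold AA
            rw [hnbv]
            refine Finset.filter_congr fun a ha => ?_
            by_cases hax : a = x
            · subst hax
              rw [hkx, hkx']
              omega
            · rw [hkkother a ha hax]
          rw [hA]
          set A := AA G K t S v with hAdef
          rw [← Finset.add_sum_erase A _ hxA, ← Finset.add_sum_erase A (fun a => q A.card
            (kk G K t S a)) hxA]
          have hrest : ∑ a ∈ A.erase x, q A.card (kk G K t (S.erase u) a)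
              = ∑ a ∈ A.erase x, q A.card (kk G K t S a) := by
            refine Finset.sum_congr rfl fun a ha => ?_
            rw [mem_erase] at ha
            rw [hkkother a (Finset.mem_filter.1 ha.2).1 ha.1]
          have hd : 1 ≤ A.card := Finset.card_pos.2 ⟨x, hxA⟩
          rw [hrest, hkx, hkx']
          set k := dg G S x with hk
          have hav : 0 ≤ (f 1 k + (q A.card k - q A.card (k - 1))) + ∑ y ∈ M,
              (f k (kk G K t S y) - f (k - 1) (kk G K t S y)) := by
            refine avg_nonneg _ _ _ (fun y hy => ?_) (fun he => ?_)
            · rw [hcardM, Nat.cast_sub h2]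
              have hy1 := (mem_nb G).1 hy
              have := hg.leafv A.card hd k h3 (by omega) (kk G K t S y)
                (kk_pos G hxS hy1.2.symm) (kk_le G _ _)
              push_cast
              linarith
            · exfalso
              rw [he] at hcardM
              simp at hcardM
              omega
          linarith
      · -- `x` is not a neighbour of `v`
        obtain ⟨y0, hy0, _, hy0k⟩ := exists_nonleaf G hK hc hxS hxt ∅ (by simp) (by simp) (by simp)
        have hy0' := (mem_nb G).1 hy0
        have hy0u : y0 ≠ u := by rintro rfl; exact hy0k hku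
        have hy0v : y0 ≠ v := by rintro rfl; exact hvx hy0'.2.symm
        have hMeq : M = (nb G S x).erase u := by
          have hv' : v ∉ nb G S x := fun h => hvx ((mem_nb G).1 h).2.symm
          rw [hM, nb_erase, nb_erase, Finset.erase_eq_of_notMem hv']
        have hcardM : M.card = dg G S x - 1 := by
          rw [hMeq, Finset.card_erase_of_mem hux']; rfl
        have hy0M : y0 ∈ M := by rw [hMeq]; exact Finset.mem_erase.2 ⟨hy0u, hy0⟩
        have h2 : 2 ≤ dg G S x := by
          have := Finset.card_pos.2 ⟨y0, hy0M⟩
          omega
        have hxnv : x ∉ nb G S v := fun h => hvx ((mem_nb G).1 h).2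
        have hA : AA G K t (S.erase u) v = AA G K t S v := by
          unfold AA
          rw [hnbv]
          refine Finset.filter_congr fun a ha => ?_
          rw [hkkother a ha (by rintro rfl; exact hxnv ha)]
        rw [hA]
        have hQ : ∑ a ∈ AA G K t S v, q (AA G K t S v).card (kk G K t (S.erase u) a)
            = ∑ a ∈ AA G K t S v, q (AA G K t S v).card (kk G K t S a) := by
          refine Finset.sum_congr rfl fun a ha => ?_
          have ha' := (Finset.mem_filter.1 ha).1
          rw [hkkother a ha' (by rintro rfl; exact hxnv ha')]
        rw [hQ]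
        set k := dg G S x with hk
        rw [← Finset.add_sum_erase M _ hy0M]
        have hcard2 : ((M.erase y0).card : ℝ) = (k : ℝ) - 2 := by
          rw [Finset.card_erase_of_mem hy0M, hcardM]
          rw [show k - 1 - 1 = k - 2 by omega, Nat.cast_sub h2]; norm_num
        have hy0c : 2 ≤ kk G K t S y0 := by
          have := kk_pos G (K := K) (t := t) hxS hy0'.2.symm
          omega
        have hav : 0 ≤ (f 1 k + (f k (kk G K t S y0) - f (k - 1) (kk G K t S y0))) +
            ∑ y ∈ M.erase y0, (f k (kk G K t S y) - f (k - 1) (kk G K t S y)) := by
          refine avg_nonneg _ _ _ (fun y hy => ?_) (fun he => ?_)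
          · rw [hcard2]
            have hy1 := (mem_nb G).1 (Finset.mem_of_mem_erase hy)
            have := hg.leaf k h2 (by omega) (kk G K t S y) (kk_pos G hxS hy1.2.symm) (kk_le G _ _)
              (kk G K t S y0) hy0c (kk_le G _ _)
            linarith
          · have hk2 : k = 2 := by
              have : (M.erase y0).card = 0 := by rw [he]; rfl
              rw [Finset.card_erase_of_mem hy0M, hcardM] at this
              omega
            have := hg.leaf 2 le_rfl hK 1 le_rfl (by omega) (kk G K t S y0) hy0c (kk_le G _ _)
            rw [hk2]
            norm_num at this ⊢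
            linarith
        linarith

end Pool.Agent.H90Cyc
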