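import Pool.Agent.H90Cyc.PotD

/-!
Deletion of a closed set of vertices which is only attached to the current vertex.
-/

namespace Pool.Agent.H90Cyc

open Finset

variable {V : Type*} [DecidableEq V] (G : SimpleGraph V) [DecidableRel G.Adj]
variable {K : ℕ} {f q : ℕ → ℕ → ℝ} {β : ℕ → ℕ → ℕ → ℝ} {t : V}

theorem q_step (hg : Good K f q β) (A : Finset V) (c : V → ℕ)
    (hc : ∀ a ∈ A, 2 ≤ c a ∧ c a ≤ K + 1) {b : V} (hb : b ∈ A) (hne : (A.erase b).Nonempty) :
    ∑ a ∈ A.erase b, q (A.erase b).card (c a) ≤ ∑ a ∈ A, q A.card (c a) := by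
  have hcA : (A.erase b).card = A.card - 1 := Finset.card_erase_of_mem hb
  have hd : 2 ≤ A.card := by
    have := Finset.card_pos.2 hne
    omega
  have hav : 0 ≤ q A.card (c b) + ∑ a ∈ A.erase b, (q A.card (c a) - q (A.card - 1) (c a)) := by
    refine avg_nonneg _ _ _ (fun y hy => ?_) (fun he => ?_)
    · rw [hcA, Nat.cast_sub (by omega), Nat.cast_one]
      have h1 := hc b hb
      have h2 := hc y (Finset.mem_of_mem_erase hy)
      exact hg.comp A.card hd (c b) h1.1 h1.2 (c y) h2.1 h2.2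
    · rw [he] at hne; exact absurd hne (by simp)
  rw [Finset.sum_sub_distrib] at hav
  rw [hcA, ← Finset.add_sum_erase A _ hb]
  linarith

theorem q_sdiff (hg : Good K f q β) (A : Finset V) (c : V → ℕ)
    (hc : ∀ a ∈ A, 2 ≤ c a ∧ c a ≤ K + 1) (B : Finset V) : B ⊆ A → (A \ B).Nonempty →
    ∑ a ∈ A \ B, q (A \ B).card (c a) ≤ ∑ a ∈ A, q A.card (c a) := by
  induction B using Finset.induction_on with
  | empty => intro _ _; simp
  | insert b B hb ih =>
    intro hB hne
    have hBA : B ⊆ A := fun x hx => hB (Finset.mem_insert_of_mem hx)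
    have hset : A \ insert b B = (A \ B).erase b := by
      ext x; simp only [mem_sdiff, mem_insert, mem_erase]; tauto
    rw [hset] at hne ⊢
    have hbA : b ∈ A \ B := Finset.mem_sdiff.2 ⟨hB (Finset.mem_insert_self b B), hb⟩
    refine le_trans (q_step hg (A \ B) c (fun a ha => hc a (Finset.mem_sdiff.1 ha).1) hbA hne) ?_
    exact ih hBA (hne.mono (Finset.erase_subset _ _))

theorem WW_sdiff (hg : Good K f q β) {S U : Finset V} (hc : Conn G t S) {v : V} (hv : v ∈ S)
    (hvt : v ≠ t) (hU : U ⊆ S.erase v) (htU : t ∉ U)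
    (hcl : ∀ x ∈ U, ∀ y ∈ S.erase v, G.Adj x y → y ∈ U)
    (hlf : ∀ y ∈ S, y ≠ v → 2 ≤ kk G K t S y) :
    WW G K f q t (S \ U) v ≤ WW G K f q t S v := by
  have hvU : v ∉ U := fun h => by
    have := hU h; simp at this
  have hnadj : ∀ y ∈ S, y ≠ v → y ∉ U → ∀ z ∈ U, ¬ G.Adj y z := fun y hy hyv hyU z hz h =>
    hyU (hcl z hz y (Finset.mem_erase.2 ⟨hyv, hy⟩) h.symm)
  have hkk : ∀ y ∈ S, y ≠ v → y ∉ U → kk G K t (S \ U) y = kk G K t S y := by
    intro y hy hyv hyU
    unfold kk dg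
    have : nb G (S \ U) y = nb G S y := by
      ext z
      simp only [mem_nb, mem_sdiff]
      constructor
      · rintro ⟨⟨h1, _⟩, h2⟩; exact ⟨h1, h2⟩
      · rintro ⟨h1, h2⟩; exact ⟨⟨h1, fun hz => hnadj y hy hyv hyU z hz h2⟩, h2⟩
    rw [this]
  have hnbne : ∀ a ∈ nb G S v, a ≠ v := fun a ha h => not_mem_nb_self G S v (h ▸ ha)
  have hA : AA G K t S v = nb G S v := by
    unfold AA
    rw [Finset.filter_true_of_mem]
    intro a ha
    have := hlf a ((mem_nb G).1 ha).1 (hnbne a ha)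
    omega
  have hnb' : nb G (S \ U) v = nb G S v \ U := by
    ext z; simp only [mem_nb, mem_sdiff]; tauto
  have hA' : AA G K t (S \ U) v = nb G S v \ U := by
    unfold AA
    rw [hnb', Finset.filter_true_of_mem]
    intro a ha
    rw [mem_sdiff] at ha
    have ha' := (mem_nb G).1 ha.1
    rw [hkk a ha'.1 (hnbne a ha.1) ha.2]
    have := hlf a ha'.1 (hnbne a ha.1)
    omega
  have hne : (nb G S v \ U).Nonempty := by
    obtain ⟨x, hx, y, hyS, hyU, hxy⟩ := hc (insert v U)
      (Finset.insert_subset hv (fun x hx => Finset.mem_of_mem_erase (hU hx))) ⟨v, by simp⟩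
      (by rw [mem_insert]; rintro (h | h)
          · exact hvt h.symm
          · exact htU h)
    rw [mem_insert, not_or] at hyU
    rw [mem_insert] at hx
    rcases hx with rfl | hx
    · exact ⟨y, Finset.mem_sdiff.2 ⟨(mem_nb G).2 ⟨hyS, hxy⟩, hyU.2⟩⟩
    · exact absurd (hcl x hx y (Finset.mem_erase.2 ⟨hyU.1, hyS⟩) hxy) hyU.2
  unfold WW
  rw [hA, hA']
  have hQ : ∑ a ∈ nb G S v \ U, q (nb G S v \ U).card (kk G K t (S \ U) a)
      ≤ ∑ a ∈ nb G S v, q (nb G S v).card (kk G K t S a) := by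
    have h1 : ∑ a ∈ nb G S v \ U, q (nb G S v \ U).card (kk G K t (S \ U) a)
        = ∑ a ∈ nb G S v \ U, q (nb G S v \ U).card (kk G K t S a) := by
      refine Finset.sum_congr rfl fun a ha => ?_
      rw [mem_sdiff] at ha
      rw [hkk a ((mem_nb G).1 ha.1).1 (hnbne a ha.1) ha.2]
    rw [h1]
    have h2 := q_sdiff hg (nb G S v) (kk G K t S)
      (fun a ha => ⟨hlf a ((mem_nb G).1 ha).1 (hnbne a ha), kk_le G _ _⟩) (nb G S v ∩ U)
      Finset.inter_subset_left
    rw [Finset.sdiff_inter_self_left] at h2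
    exact h2 hne
  have hP : PS G ((S \ U).erase v) (fun x y => f (kk G K t (S \ U) x) (kk G K t (S \ U) y))
      ≤ PS G (S.erase v) (fun x y => f (kk G K t S x) (kk G K t S y)) := by
    rw [PS_closed G hU hcl]
    have hset : (S \ U).erase v = S.erase v \ U := by
      ext x; simp only [mem_sdiff, mem_erase]; tauto
    rw [hset]
    have h1 : PS G (S.erase v \ U) (fun x y => f (kk G K t (S \ U) x) (kk G K t (S \ U) y))
        = PS G (S.erase v \ U) (fun x y => f (kk G K t S x) (kk G K t S y)) := by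
      refine PS_congr G fun a ha b hb _ => ?_
      rw [mem_sdiff, mem_erase] at ha hb
      rw [hkk a ha.1.2 ha.1.1 ha.2, hkk b hb.1.2 hb.1.1 hb.2]
    have h2 : 0 ≤ PS G U (fun x y => f (kk G K t S x) (kk G K t S y)) := by
      refine PS_nonneg G fun a ha b hb _ => ?_
      have ha' := Finset.mem_erase.1 (hU ha)
      have hb' := Finset.mem_erase.1 (hU hb)
      exact hg.fnn _ _ (hlf a ha'.2 ha'.1) (kk_le G _ _) (hlf b hb'.2 hb'.1) (kk_le G _ _)
    linarith
  linarith

/-- lower bound for the potential without a current vertex -/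
theorem W0_nonneg (hg : Good K f q β) : ∀ (n : ℕ) (S : Finset V), S.card = n → t ∈ S →
    Conn G t S → 0 ≤ W0 G K f t S := by
  intro n
  induction n with
  | zero =>
    intro S hS ht _
    have := Finset.card_pos.2 ⟨t, ht⟩
    omega
  | succ n ih =>
    intro S hS ht hc
    by_cases h : ∃ u ∈ S, u ≠ t ∧ dg G S u = 1
    · obtain ⟨u, hu, hut, hdg⟩ := h
      refine le_trans (ih (S.erase u) ?_ (Finset.mem_erase.2 ⟨hut.symm, ht⟩)
        (hc.erase_leaf G hut (le_of_eq hdg))) (W0_erase_leaf G hg hc hu hut hdg)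
      rw [Finset.card_erase_of_mem hu]; omega
    · push Not at h
      unfold W0
      have hK := hg.K2
      refine PS_nonneg G fun a ha b hb hab => ?_
      have key : ∀ x ∈ S, ∀ y ∈ S, G.Adj x y → 2 ≤ kk G K t S x := by
        intro x hx y hy hxy
        have h1 := kk_pos G (K := K) (t := t) hy hxy
        by_contra hcon
        have h2 : kk G K t S x = 1 := by omega
        obtain ⟨h3, h4⟩ := dg_eq_one_of_kk G hK h2
        exact h x hx h3 h4
      exact hg.fnn _ _ (key a ha b hb hab) (kk_le G _ _) (key b hb a ha hab.symm) (kk_le G _ _)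

end Pool.Agent.H90Cyc
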