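import Pool.Agent.H90Cyc.PotE

/-!
The main step: the potential after a move of the current vertex.
-/

namespace Pool.Agent.H90Cyc

open Finset

variable {V : Type*} [DecidableEq V] (G : SimpleGraph V) [DecidableRel G.Adj]
variable {K : ℕ} {f q : ℕ → ℕ → ℝ} {β : ℕ → ℕ → ℕ → ℝ} {t : V}

/-- share of the edge `x y` charged to `x` when `v` is deleted -/
noncomputable def al (K : ℕ) (f : ℕ → ℕ → ℝ) (β : ℕ → ℕ → ℕ → ℝ) (t : V) (S : Finset V)
    (v x y : V) : ℝ :=
  if kk G K t S x = K + 1 then 0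
  else if G.Adj v y then
    (if kk G K t S y = K + 1 then f (kk G K t S x - 1) K - f (kk G K t S x) K
      else β (dg G S v) (kk G K t S x) (kk G K t S y))
  else f (kk G K t S x - 1) (kk G K t S y) - f (kk G K t S x) (kk G K t S y)

/-- log of the gain of `u` -/
noncomputable def lgS (K : ℕ) (f q : ℕ → ℕ → ℝ) (β : ℕ → ℕ → ℕ → ℝ) (t : V) (S : Finset V)
    (v u : V) : ℝ :=
  q (dg G S v) (kk G K t S u) - ∑ y ∈ nb G (S.erase v) u, al G K f β t S v u y

/-- log of the relative weight of `a` -/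
noncomputable def lrS (K : ℕ) (f q : ℕ → ℕ → ℝ) (β : ℕ → ℕ → ℕ → ℝ) (t : V) (S : Finset V)
    (v a : V) : ℝ :=
  - ∑ y ∈ nb G (S.erase v) a, al G K f β t S v a y
  - ∑ y ∈ nb G (S.erase v) a, ((if G.Adj v y then al G K f β t S v y a else 0)
      + f (kk G K t S a) (kk G K t S y))
  + ∑ y ∈ AA G K t (S.erase v) a, q (AA G K t (S.erase v) a).card (kk G K t (S.erase v) y)

/-- classes after the deletion of `v` -/
theorem kk_erase_fin {S : Finset V} {v x : V} (hv : v ∈ S) (h : G.Adj v x)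
    (hk : kk G K t S x ≠ K + 1) : kk G K t (S.erase v) x = kk G K t S x - 1 := by
  have hx : x ≠ t := by rintro rfl; exact hk (kk_t G S)
  have h1 : kk G K t S x = dg G S x ∧ dg G S x ≤ K := by
    unfold kk at hk ⊢; rw [if_neg hx] at hk ⊢; omega
  rw [kk_of_le G hx (by rw [dg_erase_of_adj G hv h.symm]; omega), dg_erase_of_adj G hv h.symm, h1.1]

theorem kk_erase_inf {S : Finset V} {v x : V}
    (hk : kk G K t S x = K + 1) : K ≤ kk G K t (S.erase v) x := by
  unfold kk at hk ⊢
  split_ifs at hk ⊢ with hx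
  · omega
  · have h2 : dg G S x - 1 ≤ dg G (S.erase v) x := by
      unfold dg
      rw [nb_erase]
      exact Finset.pred_card_le_card_erase
    omega

theorem al_ineq (hg : Good K f q β) {S : Finset V} {v : V} (hv : v ∈ S)
    (hlf : ∀ y ∈ S, y ≠ v → 2 ≤ kk G K t S y) {x y : V} (hx : x ∈ S.erase v)
    (hy : y ∈ S.erase v) (hxy : G.Adj x y) :
    f (kk G K t (S.erase v) x) (kk G K t (S.erase v) y) ≤ f (kk G K t S x) (kk G K t S y) +
      ((if G.Adj v x then al G K f β t S v x y else 0)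
        + (if G.Adj v y then al G K f β t S v y x else 0)) := by
  have hK := hg.K2
  rw [mem_erase] at hx hy
  have hkx := hlf x hx.2 hx.1
  have hky := hlf y hy.2 hy.1
  have hkx' := kk_le G (K := K) (t := t) S x
  have hky' := kk_le G (K := K) (t := t) S y
  -- one-sided statement
  have one : ∀ x y : V, x ∈ S → y ∈ S → G.Adj v x → ¬ G.Adj v y →
      f (kk G K t (S.erase v) x) (kk G K t (S.erase v) y) = f (kk G K t S x) (kk G K t S y) +
        al G K f β t S v x y := by
    intro x y hx hy hvx hvy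
    rw [kk_erase_of_not G (y := y) (fun h => hvy h.symm)]
    unfold al
    split_ifs with h1
    · rw [h1, f_cap hg (kk_erase_inf G h1) (kk_le G _ _), hg.fK]; ring
    · rw [kk_erase_fin G hv hvx h1]; ring
  by_cases hvx : G.Adj v x <;> by_cases hvy : G.Adj v y
  · rw [if_pos hvx, if_pos hvy]
    by_cases h1 : kk G K t S x = K + 1 <;> by_cases h2 : kk G K t S y = K + 1
    · rw [f_cap hg (kk_erase_inf G h1) (kk_le G _ _), hg.fsymm K,
        f_cap hg (kk_erase_inf G h2) (kk_le G _ _), h1, h2, hg.fK, hg.fsymm K (K + 1), hg.fK]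
      unfold al; simp [h1, h2]
    · rw [f_cap hg (kk_erase_inf G h1) (kk_le G _ _), h1, hg.fK, kk_erase_fin G hv hvy h2]
      unfold al; simp only [h1, h2, hvx, hvy, if_true, if_false]
      rw [hg.fsymm K, hg.fsymm K]; linarith
    · rw [hg.fsymm, f_cap hg (kk_erase_inf G h2) (kk_le G _ _), h2, hg.fsymm (kk G K t S x),
        hg.fK, kk_erase_fin G hv hvx h1]
      unfold al; simp only [h1, h2, hvx, hvy, if_true, if_false]
      rw [hg.fsymm K, hg.fsymm K]; linarith
    · rw [kk_erase_fin G hv hvy h2, kk_erase_fin G hv hvx h1]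
      unfold al; simp only [h1, h2, hvx, hvy, if_true, if_false]
      have hd : 2 ≤ dg G S v := by
        have : ({x, y} : Finset V).card ≤ (nb G S v).card := by
          refine Finset.card_le_card ?_
          intro z hz
          rw [mem_insert, mem_singleton] at hz
          rcases hz with rfl | rfl
          · exact (mem_nb G).2 ⟨hx.2, hvx⟩
          · exact (mem_nb G).2 ⟨hy.2, hvy⟩
        rwa [Finset.card_pair hxy.ne] at this
      have := hg.tri (dg G S v) hd (kk G K t S x) hkx (by omega) (kk G K t S y) hky (by omega)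
      linarith
  · rw [if_pos hvx, if_neg hvy, one x y hx.2 hy.2 hvx hvy]; linarith
  · rw [if_neg hvx, if_pos hvy, hg.fsymm, one y x hy.2 hx.2 hvy hvx, hg.fsymm]; linarith
  · rw [if_neg hvx, if_neg hvy, kk_erase_of_not G (fun h => hvx h.symm),
      kk_erase_of_not G (fun h => hvy h.symm)]; linarith

theorem AA_eq_nb {S : Finset V} {v : V} (hlf : ∀ y ∈ S, y ≠ v → 2 ≤ kk G K t S y) :
    AA G K t S v = nb G S v := by
  unfold AA
  rw [Finset.filter_true_of_mem]
  intro a ha
  have := hlf a ((mem_nb G).1 ha).1 (fun h => not_mem_nb_self G S v (h ▸ ha))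
  omega

theorem WW_eq {S : Finset V} {v : V} (hlf : ∀ y ∈ S, y ≠ v → 2 ≤ kk G K t S y) :
    WW G K f q t S v = PS G (S.erase v) (fun x y => f (kk G K t S x) (kk G K t S y)) +
      ∑ a ∈ nb G S v, q (dg G S v) (kk G K t S a) := by
  unfold WW
  rw [AA_eq_nb G hlf]
  rfl

theorem sum_ite_adj {S : Finset V} (v : V) (h : V → ℝ) :
    ∑ x ∈ S.erase v, (if G.Adj v x then h x else 0) = ∑ x ∈ nb G S v, h x := by
  rw [← Finset.sum_filter]
  refine Finset.sum_congr ?_ fun _ _ => rfl
  ext y
  simp only [mem_filter, mem_erase, mem_nb]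
  constructor
  · rintro ⟨⟨_, h2⟩, h3⟩; exact ⟨h2, h3⟩
  · rintro ⟨h2, h3⟩; exact ⟨⟨h3.ne', h2⟩, h3⟩

theorem W0_step (hg : Good K f q β) {S : Finset V} {v : V} (hv : v ∈ S)
    (hlf : ∀ y ∈ S, y ≠ v → 2 ≤ kk G K t S y) :
    W0 G K f t (S.erase v) ≤ WW G K f q t S v - ∑ u ∈ nb G S v, lgS G K f q β t S v u := by
  rw [WW_eq G hlf]
  unfold W0
  have h := PS_le_add G (S := S.erase v) (F := fun x y => f (kk G K t S x) (kk G K t S y))
    (F' := fun x y => f (kk G K t (S.erase v) x) (kk G K t (S.erase v) y))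
    (H := fun x y => if G.Adj v x then al G K f β t S v x y else 0)
    (fun x hx y hy hxy => al_ineq G hg hv hlf hx hy hxy)
  have h2 : ∑ x ∈ S.erase v, ∑ y ∈ nb G (S.erase v) x,
        (if G.Adj v x then al G K f β t S v x y else 0)
      = ∑ x ∈ nb G S v, ∑ y ∈ nb G (S.erase v) x, al G K f β t S v x y := by
    rw [← sum_ite_adj G v]
    refine Finset.sum_congr rfl fun x _ => ?_
    by_cases h : G.Adj v x <;> simp [h]
  rw [h2] at h
  unfold lgS
  rw [Finset.sum_sub_distrib]
  linarith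

theorem WW_step (hg : Good K f q β) {S : Finset V} {v : V} (hv : v ∈ S)
    (hlf : ∀ y ∈ S, y ≠ v → 2 ≤ kk G K t S y) {a : V} (ha : a ∈ nb G S v) :
    WW G K f q t (S.erase v) a ≤ WW G K f q t S v - ∑ u ∈ nb G S v, lgS G K f q β t S v u
      + lrS G K f q β t S v a := by
  rw [WW_eq G hlf]
  unfold WW
  have ha' := (mem_nb G).1 ha
  have haS : a ∈ S.erase v := Finset.mem_erase.2 ⟨ha'.2.ne', ha'.1⟩
  set F := fun x y => f (kk G K t S x) (kk G K t S y) with hF
  set F' := fun x y => f (kk G K t (S.erase v) x) (kk G K t (S.erase v) y) with hF'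
  set H := fun x y => if G.Adj v x then al G K f β t S v x y else 0 with hH
  have h := PS_le_add G (S := (S.erase v).erase a) (F := F) (F' := F') (H := H)
    (fun x hx y hy hxy => al_ineq G hg hv hlf (Finset.mem_of_mem_erase hx)
      (Finset.mem_of_mem_erase hy) hxy)
  have h1 := PS_erase G (S := S.erase v) (F := F) (fun x y => hg.fsymm _ _) haS
  -- the total charge
  have h2 : ∑ x ∈ S.erase v, ∑ y ∈ nb G (S.erase v) x, H x y
      = ∑ x ∈ nb G S v, ∑ y ∈ nb G (S.erase v) x, al G K f β t S v x y := by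
    rw [← sum_ite_adj G v]
    refine Finset.sum_congr rfl fun x _ => ?_
    by_cases h : G.Adj v x <;> simp [hH, h]
  have h3 : ∑ x ∈ S.erase v, ∑ y ∈ nb G (S.erase v) x, H x y
      = ∑ x ∈ (S.erase v).erase a, ∑ y ∈ nb G ((S.erase v).erase a) x, H x y
        + ∑ y ∈ nb G (S.erase v) a, H y a + ∑ y ∈ nb G (S.erase v) a, H a y := by
    rw [← Finset.sum_erase_add _ _ haS]
    congr 1
    have h4 : ∀ x ∈ (S.erase v).erase a, ∑ y ∈ nb G (S.erase v) x, H x y
        = ∑ y ∈ nb G ((S.erase v).erase a) x, H x y + (if G.Adj a x then H x a else 0) := by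
      intro x _
      by_cases h : G.Adj a x
      · rw [if_pos h, nb_erase G (S.erase v) a]
        exact (Finset.sum_erase_add _ _ ((mem_nb G).2 ⟨haS, h.symm⟩)).symm
      · rw [if_neg h, add_zero, nb_erase_of_not G (fun hh => h hh.symm)]
    rw [Finset.sum_congr rfl h4, Finset.sum_add_distrib, sum_ite_adj G a]
  have h5 : ∑ y ∈ nb G (S.erase v) a, H a y
      = ∑ y ∈ nb G (S.erase v) a, al G K f β t S v a y := by
    refine Finset.sum_congr rfl fun y _ => ?_
    simp [hH, ha'.2]
  unfold lgS lrS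
  rw [Finset.sum_sub_distrib, Finset.sum_add_distrib]
  have h6 : ∑ y ∈ nb G (S.erase v) a, (if G.Adj v y then al G K f β t S v y a else 0)
      = ∑ y ∈ nb G (S.erase v) a, H y a := rfl
  have h7 : ∑ y ∈ nb G (S.erase v) a, f (kk G K t S a) (kk G K t S y)
      = ∑ y ∈ nb G (S.erase v) a, F a y := rfl
  rw [h6, h7]
  linarith

end Pool.Agent.H90Cyc
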