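import Pool.Agent.H90Cyc.PotF

/-!
The relative weights and gains at a move are of finitely many kinds.
-/

namespace Pool.Agent.H90Cyc

open Finset

variable {V : Type*} [DecidableEq V] (G : SimpleGraph V) [DecidableRel G.Adj]
variable {K : ℕ} {f q : ℕ → ℕ → ℝ} {β : ℕ → ℕ → ℕ → ℝ} {t : V}

/-- the charge of a vertex of class `k` for a neighbour with code `c` -/
noncomputable def alc (K : ℕ) (f : ℕ → ℕ → ℝ) (β : ℕ → ℕ → ℕ → ℝ) (d k : ℕ) (c : Bool × ℕ) : ℝ :=
  if c.1 = true then (if c.2 = K + 1 then f (k - 1) K - f k K else β d k c.2)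
  else f (k - 1) c.2 - f k c.2

/-- the other contribution of a neighbour with code `c` to the log weight -/
noncomputable def rcc (K : ℕ) (f q : ℕ → ℕ → ℝ) (β : ℕ → ℕ → ℕ → ℝ) (d k d' : ℕ)
    (c : Bool × ℕ) : ℝ :=
  if c.1 = true then
    (if c.2 = K + 1 then - f k K + q d' K
     else if c.2 = 2 then - f k 2 - β d 2 k
     else - f k c.2 - β d c.2 k + q d' (c.2 - 1))
  else - f k c.2 + q d' c.2

/-- admissible pairs of a vertex of finite class -/
def AdmF (K : ℕ) (f q : ℕ → ℕ → ℝ) (β : ℕ → ℕ → ℕ → ℝ) (d : ℕ) (lr lg : ℝ) : Prop :=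
  ∃ k, 2 ≤ k ∧ k ≤ K ∧ ∃ m : Multiset (Bool × ℕ), m.card = k - 1 ∧
    (∀ c ∈ m, 2 ≤ c.2 ∧ c.2 ≤ K + 1) ∧ (m.filter (fun c => c.1 = true)).card ≤ d - 1 ∧
    1 ≤ (m.filter (fun c => c ≠ (true, 2))).card ∧
    lr = (m.map (fun c => - alc K f β d k c
      + rcc K f q β d k (m.filter (fun c => c ≠ (true, 2))).card c)).sum ∧
    lg = q d k - (m.map (fun c => alc K f β d k c)).sum

/-- admissible pairs of a vertex of class `K + 1` -/
def AdmI (K : ℕ) (f q : ℕ → ℕ → ℝ) (d : ℕ) (lr lg : ℝ) : Prop :=
  ∃ c d' j : ℕ, 2 ≤ c ∧ c ≤ K + 1 ∧ 1 ≤ d' ∧ j ≤ d - 1 ∧ K ≤ d' + j ∧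
    lr ≤ d' * (q d' c - f K c) - j * f 1 K ∧ lg = q d (K + 1)

/-- the code of a neighbour -/
def cod (K : ℕ) (t : V) (S : Finset V) (v y : V) : Bool × ℕ :=
  if G.Adj v y ∧ ¬ (kk G K t S y = K + 1 ∧ kk G K t (S.erase v) y = K + 1)
    then (true, kk G K t S y) else (false, kk G K t S y)

theorem cod_snd (S : Finset V) (v y : V) : (cod G K t S v y).2 = kk G K t S y := by
  unfold cod; split_ifs <;> rfl

theorem f_capr (hg : Good K f q β) {k : ℕ} (hk : K ≤ k) (hk' : k ≤ K + 1) (l : ℕ) :
    f l k = f l K := by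
  rw [hg.fsymm l k, f_cap hg hk hk', hg.fsymm]

theorem cod_al (hg : Good K f q β) {S : Finset V} {v a y : V} {k : ℕ}
    (hk : kk G K t S a = k) (hkK : k ≠ K + 1) :
    al G K f β t S v a y = alc K f β (dg G S v) k (cod G K t S v y) := by
  have h0 : kk G K t S a ≠ K + 1 := by omega
  by_cases hvy : G.Adj v y
  · by_cases h1 : kk G K t S y = K + 1
    · have hal : al G K f β t S v a y = f (k - 1) K - f k K := by
        unfold al; rw [if_neg h0, if_pos hvy, if_pos h1, hk]
      rw [hal]
      by_cases h2 : kk G K t (S.erase v) y = K + 1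
      · have hc : cod G K t S v y = (false, K + 1) := by
          unfold cod; rw [if_neg (by tauto), h1]
        rw [hc]
        unfold alc
        simp only [Bool.false_eq_true, if_false]
        rw [f_capr hg (Nat.le_succ K) le_rfl, f_capr hg (Nat.le_succ K) le_rfl]
      · have hc : cod G K t S v y = (true, K + 1) := by
          unfold cod; rw [if_pos (by tauto), h1]
        rw [hc]
        unfold alc
        simp
    · have hc : cod G K t S v y = (true, kk G K t S y) := by
        unfold cod; rw [if_pos (by tauto)]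
      have hal : al G K f β t S v a y = β (dg G S v) k (kk G K t S y) := by
        unfold al; rw [if_neg h0, if_pos hvy, if_neg h1, hk]
      rw [hc, hal]
      unfold alc
      simp [h1]
  · have hc : cod G K t S v y = (false, kk G K t S y) := by
      unfold cod; rw [if_neg (by tauto)]
    have hal : al G K f β t S v a y = f (k - 1) (kk G K t S y) - f k (kk G K t S y) := by
      unfold al; rw [if_neg h0, if_neg hvy, hk]
    rw [hc, hal]
    unfold alc
    simp

theorem cod_rc (hg : Good K f q β) {S : Finset V} {v a y : V} (hv : v ∈ S) {k : ℕ}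
    (hlf : ∀ y ∈ S, y ≠ v → 2 ≤ kk G K t S y) (hva : G.Adj v a) (hy : y ∈ S) (hyv : y ≠ v)
    (hk : kk G K t S a = k) (hkK : k ≠ K + 1) (d' : ℕ) :
    - ((if G.Adj v y then al G K f β t S v y a else 0) + f k (kk G K t S y)) +
      (if kk G K t (S.erase v) y ≠ 1 then q d' (kk G K t (S.erase v) y) else 0)
      = rcc K f q β (dg G S v) k d' (cod G K t S v y) := by
  have hK := hg.K2
  have hy2 := hlf y hy hyv
  by_cases hvy : G.Adj v y
  · rw [if_pos hvy]
    by_cases h1 : kk G K t S y = K + 1
    · have h3 := kk_erase_inf G (v := v) h1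
      have h4 := kk_le G (K := K) (t := t) (S.erase v) y
      have hal : al G K f β t S v y a = 0 := by unfold al; rw [if_pos h1]
      rw [hal]
      by_cases h2 : kk G K t (S.erase v) y = K + 1
      · have hc : cod G K t S v y = (false, K + 1) := by
          unfold cod; rw [if_neg (by tauto), h1]
        rw [hc, h2, if_pos (by omega), h1]
        unfold rcc
        simp
      · have h5 : kk G K t (S.erase v) y = K := by omega
        have hc : cod G K t S v y = (true, K + 1) := by
          unfold cod; rw [if_pos (by tauto), h1]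
        rw [hc, h5, if_pos (by omega), h1, f_capr hg (Nat.le_succ K) le_rfl]
        unfold rcc
        simp
    · have h3 := kk_erase_fin G hv hvy h1
      have hal : al G K f β t S v y a = β (dg G S v) (kk G K t S y) k := by
        unfold al
        rw [if_neg h1, if_pos hva, if_neg (by omega), hk]
      have hc : cod G K t S v y = (true, kk G K t S y) := by
        unfold cod; rw [if_pos (by tauto)]
      rw [hal, hc, h3]
      unfold rcc
      simp only [if_true, if_neg h1]
      by_cases h2 : kk G K t S y = 2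
      · simp [h2]; ring
      · rw [if_neg h2, if_pos (by omega)]; ring
  · rw [if_neg hvy]
    have h3 : kk G K t (S.erase v) y = kk G K t S y := kk_erase_of_not G (fun h => hvy h.symm)
    have hc : cod G K t S v y = (false, kk G K t S y) := by
      unfold cod; rw [if_neg (by tauto)]
    rw [hc, h3, if_pos (by omega)]
    unfold rcc
    simp

theorem cod_leaf (hK : 2 ≤ K) {S : Finset V} {v y : V} (hv : v ∈ S)
    (hlf : ∀ y ∈ S, y ≠ v → 2 ≤ kk G K t S y) (hy : y ∈ S) (hyv : y ≠ v) :
    cod G K t S v y ≠ (true, 2) ↔ kk G K t (S.erase v) y ≠ 1 := by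
  have hy2 := hlf y hy hyv
  by_cases hvy : G.Adj v y
  · by_cases h1 : kk G K t S y = K + 1
    · have h3 := kk_erase_inf G (v := v) h1
      constructor
      · intro _; omega
      · intro _ h
        have := cod_snd G (K := K) (t := t) S v y
        rw [h, h1] at this
        simp only at this
        omega
    · have h3 := kk_erase_fin G hv hvy h1
      have hc : cod G K t S v y = (true, kk G K t S y) := by
        unfold cod; rw [if_pos (by tauto)]
      rw [hc, h3]
      simp only [ne_eq, Prod.mk.injEq, true_and]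
      omega
  · have h3 : kk G K t (S.erase v) y = kk G K t S y := kk_erase_of_not G (fun h => hvy h.symm)
    have hc : cod G K t S v y = (false, kk G K t S y) := by
      unfold cod; rw [if_neg (by tauto)]
    rw [hc, h3]
    simp only [ne_eq, Prod.mk.injEq, Bool.false_eq_true, false_and, not_false_eq_true, true_iff]
    omega

theorem cod_star {S : Finset V} {v y : V} (h : (cod G K t S v y).1 = true) : G.Adj v y := by
  unfold cod at h
  split_ifs at h with h1
  exact h1.1

theorem sum_AA {S : Finset V} (a : V) (h : V → ℝ) :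
    ∑ y ∈ AA G K t S a, h y = ∑ y ∈ nb G S a, (if kk G K t S y ≠ 1 then h y else 0) := by
  unfold AA; rw [Finset.sum_filter]

theorem adm_fin (hg : Good K f q β) {S : Finset V} {v a : V} (hv : v ∈ S)
    (hlf : ∀ y ∈ S, y ≠ v → 2 ≤ kk G K t S y) (hc' : Conn G t (S.erase v))
    (ha : a ∈ nb G S v) (hk : kk G K t S a ≠ K + 1) :
    AdmF K f q β (dg G S v) (lrS G K f q β t S v a) (lgS G K f q β t S v a) := by
  have hK := hg.K2
  have ha' := (mem_nb G).1 ha
  have hav : a ≠ v := ha'.2.ne'
  have haS : a ∈ S.erase v := Finset.mem_erase.2 ⟨hav, ha'.1⟩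
  have hat : a ≠ t := by rintro rfl; exact hk (kk_t G S)
  have hk2 := hlf a ha'.1 hav
  have hkle := kk_le G (K := K) (t := t) S a
  have hdg : kk G K t S a = dg G S a := by
    unfold kk at hk ⊢; rw [if_neg hat] at hk ⊢; omega
  set N := nb G (S.erase v) a with hN
  have hmemN : ∀ y ∈ N, y ∈ S ∧ y ≠ v ∧ G.Adj a y := by
    intro y hy
    rw [hN, mem_nb, mem_erase] at hy
    exact ⟨hy.1.2, hy.1.1, hy.2⟩
  set m : Multiset (Bool × ℕ) := N.val.map (cod G K t S v) with hm
  have hd' : (m.filter (fun c => c ≠ (true, 2))).card = (AA G K t (S.erase v) a).card := by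
    rw [hm, Multiset.filter_map, Multiset.card_map]
    unfold AA
    rw [Finset.card_def, Finset.filter_val]
    congr 1
    refine Multiset.filter_congr fun y hy => ?_
    have hy' := hmemN y hy
    exact cod_leaf G hK hv hlf hy'.1 hy'.2.1
  refine ⟨kk G K t S a, hk2, by omega, m, ?_, ?_, ?_, ?_, ?_, ?_⟩
  · rw [hm, Multiset.card_map, hdg, ← dg_erase_of_adj G hv ha'.2.symm]; rfl
  · intro c hc
    rw [hm, Multiset.mem_map] at hc
    obtain ⟨y, hy, rfl⟩ := hc
    rw [cod_snd]
    have hy' := hmemN y hy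
    exact ⟨hlf y hy'.1 hy'.2.1, kk_le G _ _⟩
  · rw [hm, Multiset.filter_map, Multiset.card_map]
    have : (N.filter (fun y => (cod G K t S v y).1 = true)).card ≤ ((nb G S v).erase a).card := by
      refine Finset.card_le_card fun y hy => ?_
      rw [mem_filter] at hy
      have hy' := hmemN y hy.1
      exact Finset.mem_erase.2 ⟨hy'.2.2.ne', (mem_nb G).2 ⟨hy'.1, cod_star G hy.2⟩⟩
    rw [Finset.card_erase_of_mem ha, Finset.card_def, Finset.filter_val] at this
    exact this
  · rw [hd']
    obtain ⟨y, hy, _, hyk⟩ := exists_nonleaf G hK hc' haS hat ∅ (by simp) (by simp) (by simp)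
    exact Finset.card_pos.2 ⟨y, Finset.mem_filter.2 ⟨hy, hyk⟩⟩
  · rw [hd']
    unfold lrS
    rw [sum_AA, hm, Multiset.map_map]
    have : ∀ (h : V → ℝ), (N.val.map h).sum = ∑ y ∈ N, h y := fun h => rfl
    rw [this, ← hN, ← Finset.sum_neg_distrib, sub_eq_add_neg, ← Finset.sum_neg_distrib,
      ← Finset.sum_add_distrib, ← Finset.sum_add_distrib]
    refine Finset.sum_congr rfl fun y hy => ?_
    have hy' := hmemN y hy
    simp only [Function.comp]
    rw [← cod_rc G hg hv hlf ha'.2 hy'.1 hy'.2.1 rfl hk, ← cod_al G hg rfl hk]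
    ring
  · unfold lgS
    rw [hm, Multiset.map_map]
    have : ∀ (h : V → ℝ), (N.val.map h).sum = ∑ y ∈ N, h y := fun h => rfl
    rw [this]
    congr 1
    exact Finset.sum_congr rfl fun y _ => cod_al G hg rfl hk

theorem adm_inf (hg : Good K f q β) {S : Finset V} {v a : V} (hv : v ∈ S)
    (hlf : ∀ y ∈ S, y ≠ v → 2 ≤ kk G K t S y) (hc' : Conn G t (S.erase v))
    (ha : a ∈ nb G S v) (hk : kk G K t S a = K + 1) (hat : a ≠ t) :
    AdmI K f q (dg G S v) (lrS G K f q β t S v a) (lgS G K f q β t S v a) := by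
  have hK := hg.K2
  have ha' := (mem_nb G).1 ha
  have hav : a ≠ v := ha'.2.ne'
  have haS : a ∈ S.erase v := Finset.mem_erase.2 ⟨hav, ha'.1⟩
  have hdg : K + 1 ≤ dg G S a := by
    unfold kk at hk; rw [if_neg hat] at hk; omega
  set N := nb G (S.erase v) a with hN
  have hmemN : ∀ y ∈ N, y ∈ S ∧ y ≠ v ∧ G.Adj a y := by
    intro y hy
    rw [hN, mem_nb, mem_erase] at hy
    exact ⟨hy.1.2, hy.1.1, hy.2⟩
  have hNcard : N.card = dg G S a - 1 := dg_erase_of_adj G hv ha'.2.symm
  set c : V → ℕ := fun y => kk G K t (S.erase v) y with hc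
  set A' := AA G K t (S.erase v) a with hA'
  have hA'N : A' = N.filter (fun y => c y ≠ 1) := rfl
  have hal : ∀ y, al G K f β t S v a y = 0 := fun y => by unfold al; rw [if_pos hk]
  have hne : A'.Nonempty := by
    obtain ⟨y, hy, _, hyk⟩ := exists_nonleaf G hK hc' haS hat ∅ (by simp) (by simp) (by simp)
    exact ⟨y, Finset.mem_filter.2 ⟨hy, hyk⟩⟩
  obtain ⟨y0, hy0, hmax⟩ := Finset.exists_max_image A' (fun y => q A'.card (c y) - f K (c y)) hne
  have hval : ∀ y ∈ N, (if G.Adj v y then al G K f β t S v y a else 0)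
      + f (kk G K t S a) (kk G K t S y) = f K (c y) := by
    intro y hy
    have hy' := hmemN y hy
    rw [hk, hg.fK]
    by_cases hvy : G.Adj v y
    · rw [if_pos hvy]
      by_cases h1 : kk G K t S y = K + 1
      · have hal2 : al G K f β t S v y a = 0 := by unfold al; rw [if_pos h1]
        have h3 := kk_erase_inf G (v := v) h1
        rw [hal2, h1, f_capr hg (Nat.le_succ K) le_rfl, hc]
        simp only
        rw [f_capr hg h3 (kk_le G _ _)]; ring
      · have h3 := kk_erase_fin G hv hvy h1
        have hal2 : al G K f β t S v y a = f (kk G K t S y - 1) K - f (kk G K t S y) K := by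
          unfold al
          rw [if_neg h1, if_pos ha'.2, if_pos hk]
        rw [hal2, hc]
        simp only
        rw [h3, hg.fsymm K (kk G K t S y), hg.fsymm K (kk G K t S y - 1)]; ring
    · have h3 : kk G K t (S.erase v) y = kk G K t S y := kk_erase_of_not G (fun h => hvy h.symm)
      rw [if_neg hvy, hc]
      simp only
      rw [h3]; ring
  have hlr : lrS G K f q β t S v a = ∑ y ∈ A', (q A'.card (c y) - f K (c y))
      - ((N.filter (fun y => ¬ c y ≠ 1)).card : ℝ) * f 1 K := by
    unfold lrS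
    rw [← hN, ← hA', Finset.sum_eq_zero (fun y _ => hal y), Finset.sum_congr rfl hval]
    rw [← Finset.sum_filter_add_sum_filter_not N (fun y => c y ≠ 1) (fun y => f K (c y)), ← hA'N]
    have h1 : ∑ y ∈ N.filter (fun y => ¬ c y ≠ 1), f K (c y)
        = ∑ y ∈ N.filter (fun y => ¬ c y ≠ 1), f 1 K := by
      refine Finset.sum_congr rfl fun y hy => ?_
      rw [mem_filter, not_not] at hy
      rw [hy.2, hg.fsymm]
    rw [h1, Finset.sum_const, nsmul_eq_mul, Finset.sum_sub_distrib]
    ring
  refine ⟨c y0, A'.card, (N.filter (fun y => ¬ c y ≠ 1)).card, ?_, ?_, Finset.card_pos.2 hne,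
    ?_, ?_, ?_, ?_⟩
  · have h1 : c y0 ≠ 1 := by
      rw [hA'N, mem_filter] at hy0; exact hy0.2
    have hy0N : y0 ∈ N := by rw [hA'N, mem_filter] at hy0; exact hy0.1
    have h2 := kk_pos G (K := K) (t := t) haS (hmemN y0 hy0N).2.2.symm
    change 1 ≤ c y0 at h2
    omega
  · exact kk_le G _ _
  · have : (N.filter (fun y => ¬ c y ≠ 1)).card ≤ ((nb G S v).erase a).card := by
      refine Finset.card_le_card fun y hy => ?_
      rw [mem_filter, not_not] at hy
      have hy' := hmemN y hy.1
      refine Finset.mem_erase.2 ⟨hy'.2.2.ne', (mem_nb G).2 ⟨hy'.1, ?_⟩⟩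
      by_contra hvy
      have h3 : kk G K t (S.erase v) y = kk G K t S y := kk_erase_of_not G (fun h => hvy h.symm)
      have h4 := hlf y hy'.1 hy'.2.1
      have h5 : kk G K t (S.erase v) y = 1 := hy.2
      omega
    rw [Finset.card_erase_of_mem ha] at this
    exact this
  · have := Finset.card_filter_add_card_filter_not (s := N) (fun y => c y ≠ 1)
    rw [← hA'N] at this
    omega
  · rw [hlr]
    have := Finset.sum_le_card_nsmul A' (fun y => q A'.card (c y) - f K (c y)) _ hmax
    rw [nsmul_eq_mul] at this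
    linarith
  · unfold lgS
    rw [Finset.sum_eq_zero (fun y _ => hal y), hk, sub_zero]

end Pool.Agent.H90Cyc
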