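import Pool.Agent.H90Cyc.PotG
import Pool.Agent.H90Cyc.Cycles

/-!
The main induction, and the bound for the number of cycles, given the tables.
-/

namespace Pool.Agent.H90Cyc

open Finset

/-- admissible pairs (weight, gain) -/
def Adm (K : ℕ) (f q : ℕ → ℕ → ℝ) (β : ℕ → ℕ → ℕ → ℝ) (ct : ℝ) (d : ℕ) (p : ℝ × ℝ) : Prop :=
  (∃ lr lg, AdmF K f q β d lr lg ∧ p = (Real.exp lr, Real.exp lg)) ∨
  (∃ lr lg, AdmI K f q d lr lg ∧ p = (Real.exp lr, Real.exp lg)) ∨
  p = (ct, Real.exp (q d (K + 1)))

/-- the local inequality -/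
def Loc (K : ℕ) (f q : ℕ → ℕ → ℝ) (β : ℕ → ℕ → ℕ → ℝ) (ct : ℝ) : Prop :=
  ∀ d, 1 ≤ d → ∀ m : Multiset (ℝ × ℝ), m.card = d → (∀ p ∈ m, Adm K f q β ct d p) →
    (m.map Prod.fst).sum ≤ (m.map Prod.snd).prod

section
variable {V : Type*} [DecidableEq V] (G : SimpleGraph V) [DecidableRel G.Adj]
variable {K : ℕ} {f q : ℕ → ℕ → ℝ} {β : ℕ → ℕ → ℕ → ℝ} {t : V}

omit [DecidableEq V] in
theorem conn_pos {S : Finset V} (hc : Conn G t S) {y : V} (hy : y ∈ S) (hyt : y ≠ t) :
    1 ≤ dg G S y := by
  obtain ⟨x, hx, z, hz, _, hxz⟩ := hc {y} (by simpa using hy) ⟨y, by simp⟩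
    (by rw [mem_singleton]; exact fun h => hyt h.symm)
  rw [mem_singleton] at hx
  subst hx
  exact Finset.card_pos.2 ⟨z, (mem_nb G).2 ⟨hz, hxz⟩⟩

theorem cnt_bound (hg : Good K f q β) {ct : ℝ} (hct : 0 < ct) (hL : Loc K f q β ct) :
    ∀ (N : ℕ) (n : ℕ) (S : Finset V) (v : V), S.card = N → v ∈ S → t ∈ S → v ≠ t →
      Conn G t S → (cnt G t n S v : ℝ) ≤ ct⁻¹ * Real.exp (WW G K f q t S v) := by
  intro N
  induction N using Nat.strong_induction_on with
  | _ N ih =>
  intro n S v hS hv ht hvt hc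
  have hK := hg.K2
  cases n with
  | zero => rw [cnt]; push_cast; positivity
  | succ n =>
  by_cases hleaf : ∃ u ∈ S, u ≠ v ∧ u ≠ t ∧ dg G S u = 1
  · obtain ⟨u, hu, huv, hut, hdg⟩ := hleaf
    have h1 : (cnt G t (n + 1) S v : ℝ) ≤ cnt G t (n + 1) (S.erase u) v := by
      exact_mod_cast cnt_le_erase_leaf G t (n + 1) S v u hv huv hut (le_of_eq hdg)
    have h2 := ih (S.erase u).card (by rw [← hS]; exact Finset.card_erase_lt_of_mem hu) (n + 1)
      (S.erase u) v rfl (Finset.mem_erase.2 ⟨huv.symm, hv⟩) (Finset.mem_erase.2 ⟨hut.symm, ht⟩) hvt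
      (hc.erase_leaf G hut (le_of_eq hdg))
    have h3 := WW_erase_leaf G hg hc hv hvt huv hu hut hdg
    calc (cnt G t (n + 1) S v : ℝ) ≤ _ := h1
      _ ≤ _ := h2
      _ ≤ _ := by
        refine mul_le_mul_of_nonneg_left (Real.exp_le_exp.2 h3) (by positivity)
  · push Not at hleaf
    have hlf : ∀ y ∈ S, y ≠ v → 2 ≤ kk G K t S y := by
      intro y hy hyv
      by_cases hyt : y = t
      · subst hyt; rw [kk_t]; omega
      · have h1 := hleaf y hy hyv hyt
        have h2 := conn_pos G hc hy hyt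
        unfold kk
        rw [if_neg hyt]
        omega
    by_cases hc' : Conn G t (S.erase v)
    · -- main case
      have hdpos := conn_pos G hc hv hvt
      set A := nb G S v with hA
      have hnb : nb G (S.erase v) v = A := nb_erase_of_not G (fun h => G.loopless.irrefl v h)
      set W := WW G K f q t S v with hW
      set sg := ∑ u ∈ A, lgS G K f q β t S v u with hsg
      set r : V → ℝ := fun a => if a = t then ct else Real.exp (lrS G K f q β t S v a) with hr
      have hloc := hL (dg G S v) hdpos (A.val.map (fun a => (r a, Real.exp (lgS G K f q β t S v a))))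
        (by rw [Multiset.card_map]; rfl) (by
          intro p hp
          rw [Multiset.mem_map] at hp
          obtain ⟨a, ha, rfl⟩ := hp
          by_cases hat : a = t
          · right; right
            simp only [hr, hat, if_true, Prod.mk.injEq, true_and]
            unfold lgS
            rw [Finset.sum_eq_zero, kk_t, sub_zero]
            intro y _
            unfold al; rw [if_pos (kk_t G S)]
          · by_cases hk : kk G K t S a = K + 1
            · right; left
              exact ⟨_, _, adm_inf G hg hv hlf hc' ha hk hat, by simp [hr, hat]⟩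
            · left
              exact ⟨_, _, adm_fin G hg hv hlf hc' ha hk, by simp [hr, hat]⟩)
      rw [Multiset.map_map, Multiset.map_map] at hloc
      have hs1 : (Multiset.map (Prod.fst ∘ fun a => (r a, Real.exp (lgS G K f q β t S v a)))
          A.val).sum = ∑ a ∈ A, r a := rfl
      have hs2 : (Multiset.map (Prod.snd ∘ fun a => (r a, Real.exp (lgS G K f q β t S v a)))
          A.val).prod = Real.exp sg := by
        rw [hsg, Real.exp_sum]; rfl
      rw [hs1, hs2] at hloc
      have hterm : ∀ a ∈ A, (cnt G t n (S.erase v) a : ℝ) ≤ ct⁻¹ * Real.exp (W - sg) * r a := by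
        intro a ha
        have ha' := (mem_nb G).1 ha
        have haS : a ∈ S.erase v := Finset.mem_erase.2 ⟨ha'.2.ne', ha'.1⟩
        have htS : t ∈ S.erase v := Finset.mem_erase.2 ⟨hvt.symm, ht⟩
        by_cases hat : a = t
        · have h1 : (cnt G t n (S.erase v) a : ℝ) ≤ 1 := by
            cases n with
            | zero => simp [cnt]
            | succ n => rw [cnt, if_pos hat]; simp
          have h2 : 0 ≤ W0 G K f t (S.erase v) := W0_nonneg G hg _ _ rfl htS hc'
          have h3 := W0_step G hg hv hlf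
          have h4 : 1 ≤ Real.exp (W - sg) := Real.one_le_exp (by linarith)
          have h5 : r a = ct := by simp [hr, hat]
          rw [h5, mul_comm ct⁻¹, mul_assoc, inv_mul_cancel₀ hct.ne', mul_one]
          exact le_trans h1 h4
        · have h1 := ih (S.erase v).card (by rw [← hS]; exact Finset.card_erase_lt_of_mem hv) n
            (S.erase v) a rfl haS htS hat hc'
          have h2 := WW_step G hg hv hlf ha
          have h5 : r a = Real.exp (lrS G K f q β t S v a) := by simp [hr, hat]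
          rw [h5, mul_assoc, ← Real.exp_add]
          refine le_trans h1 (mul_le_mul_of_nonneg_left (Real.exp_le_exp.2 ?_) (by positivity))
          linarith
      rw [cnt, if_neg hvt, hnb]
      push_cast
      calc ∑ a ∈ A, (cnt G t n (S.erase v) a : ℝ) ≤ ∑ a ∈ A, ct⁻¹ * Real.exp (W - sg) * r a :=
            Finset.sum_le_sum hterm
        _ = ct⁻¹ * Real.exp (W - sg) * ∑ a ∈ A, r a := by rw [Finset.mul_sum]
        _ ≤ ct⁻¹ * Real.exp (W - sg) * Real.exp sg :=
            mul_le_mul_of_nonneg_left hloc (by positivity)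
        _ = ct⁻¹ * Real.exp W := by
            rw [mul_assoc, ← Real.exp_add]; congr 2; ring
    · unfold Conn at hc'
      push Not at hc'
      obtain ⟨U, hU, hne, htU, hcl⟩ := hc'
      have hcl' : ∀ x ∈ U, ∀ y ∈ S.erase v, G.Adj x y → y ∈ U := by
        intro x hx y hy hxy
        by_contra hyU
        exact hcl x hx y hy hyU hxy
      have hvU : v ∉ U := fun h => by
        have := hU h; simp at this
      have h1 : (cnt G t (n + 1) S v : ℝ) ≤ cnt G t (n + 1) (S \ U) v := by
        exact_mod_cast cnt_le_sdiff G t (n + 1) htU hcl'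
      have hcard : (S \ U).card < N := by
        rw [← hS]
        refine Finset.card_lt_card ⟨Finset.sdiff_subset, fun h => ?_⟩
        obtain ⟨x, hx⟩ := hne
        exact (Finset.mem_sdiff.1 (h (Finset.mem_of_mem_erase (hU hx)))).2 hx
      have h2 := ih (S \ U).card hcard (n + 1)
        (S \ U) v rfl (Finset.mem_sdiff.2 ⟨hv, hvU⟩) (Finset.mem_sdiff.2 ⟨ht, htU⟩) hvt
        (hc.sdiff G htU hU hcl')
      have h3 := WW_sdiff G hg hc hv hvt hU htU hcl' hlf
      exact le_trans h1 (le_trans h2 (mul_le_mul_of_nonneg_left (Real.exp_le_exp.2 h3)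
        (by positivity)))

omit [DecidableEq V] in
theorem PS_mono_subset {S T : Finset V} (h : S ⊆ T) {L : ℝ} (hL : 0 ≤ L) :
    PS G S (fun _ _ => L) ≤ PS G T (fun _ _ => L) := by
  unfold PS
  refine mul_le_mul_of_nonneg_left ?_ (by norm_num)
  calc ∑ x ∈ S, ∑ y ∈ nb G S x, L ≤ ∑ x ∈ S, ∑ y ∈ nb G T x, L := by
        refine Finset.sum_le_sum fun x _ => ?_
        refine Finset.sum_le_sum_of_subset_of_nonneg ?_ fun _ _ _ => hL
        intro y hy
        rw [mem_nb] at hy ⊢
        exact ⟨h hy.1, hy.2⟩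
    _ ≤ ∑ x ∈ T, ∑ y ∈ nb G T x, L :=
        Finset.sum_le_sum_of_subset_of_nonneg h fun _ _ _ => Finset.sum_nonneg fun _ _ => hL

theorem WW_le {L : ℝ} (hL : 0 ≤ L)
    (hfL : ∀ k l, 1 ≤ k → k ≤ K + 1 → 1 ≤ l → l ≤ K + 1 → f k l ≤ L)
    (hqL : ∀ d k, 1 ≤ d → 2 ≤ k → k ≤ K + 1 → q d k ≤ L) {S : Finset V} {v : V} (hv : v ∈ S) :
    WW G K f q t S v ≤ PS G S (fun _ _ => L) := by
  rw [PS_erase G (F := fun _ _ => L) (fun _ _ => rfl) hv]
  unfold WW
  have h1 : PS G (S.erase v) (fun x y => f (kk G K t S x) (kk G K t S y))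
      ≤ PS G (S.erase v) (fun _ _ => L) := by
    have := PS_le_add G (S := S.erase v) (F := fun _ _ => L)
      (F' := fun x y => f (kk G K t S x) (kk G K t S y)) (H := fun _ _ => 0) (by
        intro x hx y hy hxy
        have hx' := Finset.mem_of_mem_erase hx
        have hy' := Finset.mem_of_mem_erase hy
        have := hfL _ _ (kk_pos G (K := K) (t := t) hy' hxy) (kk_le G _ _)
          (kk_pos G (K := K) (t := t) hx' hxy.symm) (kk_le G _ _)
        linarith)
    simpa using this
  have h2 : ∑ a ∈ AA G K t S v, q (AA G K t S v).card (kk G K t S a) ≤ ∑ y ∈ nb G S v, L := by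
    calc ∑ a ∈ AA G K t S v, q (AA G K t S v).card (kk G K t S a)
        ≤ ∑ a ∈ AA G K t S v, L := by
          refine Finset.sum_le_sum fun a ha => hqL _ _ (Finset.card_pos.2 ⟨a, ha⟩)
            (kk_ge_two_of_mem_AA G hv ha) (kk_le G _ _)
      _ ≤ ∑ y ∈ nb G S v, L :=
          Finset.sum_le_sum_of_subset_of_nonneg (Finset.filter_subset _ _) fun _ _ _ => hL
  linarith
end

/-- the bound for the number of cycles, given the tables -/
theorem numCycles_bound {K : ℕ} {f q : ℕ → ℕ → ℝ} {β : ℕ → ℕ → ℕ → ℝ} (hg : Good K f q β)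
    {ct : ℝ} (hct : 0 < ct) (hLoc : Loc K f q β ct) {L : ℝ} (hL : 0 ≤ L)
    (hfL : ∀ k l, 1 ≤ k → k ≤ K + 1 → 1 ≤ l → l ≤ K + 1 → f k l ≤ L)
    (hqL : ∀ d k, 1 ≤ d → 2 ≤ k → k ≤ K + 1 → q d k ≤ L)
    {V : Type*} [Fintype V] [DecidableEq V] (G : SimpleGraph V) [DecidableRel G.Adj] :
    (numCycles G : ℝ) ≤ 2 * G.edgeFinset.card * (ct⁻¹ * Real.exp (G.edgeFinset.card * L)) := by
  classical
  refine numCycles_le_of_bound G _ fun t w htw => ?_
  set S : Finset V := univ.filter (fun x => G.Reachable t x) with hS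
  have hcl : ∀ x ∈ S, ∀ y, G.Adj x y → y ∈ S := by
    intro x hx y hxy
    rw [hS, mem_filter] at hx ⊢
    exact ⟨mem_univ _, hx.2.trans hxy.reachable⟩
  have htS : t ∈ S := by rw [hS, mem_filter]; exact ⟨mem_univ _, SimpleGraph.Reachable.refl _⟩
  have hwS : w ∈ S := hcl t htS w htw
  have hconn : Conn G t S := by
    intro U hU hne htU
    by_contra hcon
    push Not at hcon
    have hclU : ∀ x ∈ U, ∀ y, G.Adj x y → y ∈ U := by
      intro x hx y hxy
      by_contra hyU
      exact hcon x hx y (hcl x (hU hx) y hxy) hyU hxy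
    obtain ⟨x0, hx0⟩ := hne
    have hreach : G.Reachable x0 t := by
      have := hU hx0
      rw [hS, mem_filter] at this
      exact this.2.symm
    obtain ⟨p⟩ := hreach
    have : ∀ (a b : V) (p : G.Walk a b), a ∈ U → b ∈ U := by
      intro a b p
      induction p with
      | nil => exact id
      | cons h _ ih => exact fun ha => ih (hclU _ ha _ h)
    exact htU (this _ _ p hx0)
  have h1 : cnt G t (Fintype.card V) univ w = cnt G t (Fintype.card V) (univ \ Sᶜ) w := by
    refine cnt_eq_of_closed G t _ univ Sᶜ w (mem_univ _) (by simpa using hwS) ?_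
    intro x _ hx y hy hxy
    rw [mem_compl, not_not] at hx
    rw [mem_compl] at hy
    exact hy (hcl x hx y hxy)
  have h2 : univ \ Sᶜ = S := by ext x; simp
  rw [h1, h2]
  refine le_trans (cnt_bound G hg hct hLoc S.card _ S w rfl hwS htS htw.ne' hconn) ?_
  refine mul_le_mul_of_nonneg_left (Real.exp_le_exp.2 ?_) (by positivity)
  refine le_trans (WW_le G hL hfL hqL hwS) ?_
  refine le_trans (PS_mono_subset G (Finset.subset_univ S) hL) ?_
  unfold PS
  have h3 : ∑ x ∈ (univ : Finset V), ∑ y ∈ nb G univ x, L = ∑ x : V, (G.degree x : ℝ) * L := by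
    refine Finset.sum_congr rfl fun x _ => ?_
    rw [Finset.sum_const, nsmul_eq_mul]
    congr 2
    rw [SimpleGraph.degree]
    congr 1
    ext y
    simp [nb]
  rw [h3, ← Finset.sum_mul]
  have h4 : ∑ x : V, (G.degree x : ℝ) = 2 * G.edgeFinset.card := by
    exact_mod_cast G.sum_degrees_eq_twice_card_edges
  rw [h4]
  linarith

end Pool.Agent.H90Cyc
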