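import Pool.Agent.H90Cyc.PotH
import Pool.Agent.H90Cyc.TabData

/-!
The functions given by the tables, and the conditions `Good`.
-/

namespace Pool.Agent.H90Cyc

open Finset

def phT (i j : ℕ) : ℕ := (phL.getD i []).getD j 1000000
def psT (i j : ℕ) : ℕ := (psL.getD i []).getD j 1000000
def bT (h i j : ℕ) : ℕ := ((bL.getD h []).getD i []).getD j 1000000

def phN (k l : ℕ) : ℕ := phT (min k 6) (min l 6)
def psN (d k : ℕ) : ℕ := psT (min d 7) (min k 7)
def bN (d k l : ℕ) : ℕ := bT (min d 7) (min k 6) (min l 6)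

/-- logarithm of `n / 10 ^ 6` -/
noncomputable def lgn (n : ℕ) : ℝ := Real.log n - Real.log 1000000

noncomputable def ff (k l : ℕ) : ℝ := lgn (phN k l)
noncomputable def qq (d k : ℕ) : ℝ := lgn (psN d k)
noncomputable def bb (d k l : ℕ) : ℝ := lgn (bN d k l)

theorem phN_pos (k l : ℕ) : 0 < phN k l := by
  have h : ∀ i ≤ 6, ∀ j ≤ 6, 0 < phT i j := by decide +kernel
  exact h _ (min_le_right _ _) _ (min_le_right _ _)

theorem psN_pos (d k : ℕ) : 0 < psN d k := by
  have h : ∀ i ≤ 7, ∀ j ≤ 7, 0 < psT i j := by decide +kernel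
  exact h _ (min_le_right _ _) _ (min_le_right _ _)

theorem bN_pos (d k l : ℕ) : 0 < bN d k l := by
  have h : ∀ h ≤ 7, ∀ i ≤ 6, ∀ j ≤ 6, 0 < bT h i j := by decide +kernel
  exact h _ (min_le_right _ _) _ (min_le_right _ _) _ (min_le_right _ _)

theorem exp_lgn {n : ℕ} (h : 0 < n) : Real.exp (lgn n) = n / 1000000 := by
  unfold lgn
  rw [Real.exp_sub, Real.exp_log (by exact_mod_cast h), Real.exp_log (by norm_num)]

theorem lgn_le {m n : ℕ} (hm : 0 < m) (h : m ≤ n) : lgn m ≤ lgn n := by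
  unfold lgn
  have := Real.log_le_log (by exact_mod_cast hm : (0 : ℝ) < m) (by exact_mod_cast h : (m : ℝ) ≤ n)
  linarith

theorem lgn_nonneg {n : ℕ} (h : 1000000 ≤ n) : 0 ≤ lgn n := by
  have := lgn_le (by norm_num) h
  unfold lgn at this ⊢
  push_cast at this
  linarith

/-- from a product inequality to a sum inequality -/
theorem lg_ineq {a1 a2 a3 a4 a5 n : ℕ} (h1 : 0 < a1) (h2 : 0 < a2) (h3 : 0 < a3) (h4 : 0 < a4)
    (h5 : 0 < a5) (h : a3 ^ n * a5 * 1000000 ≤ a1 * a2 ^ n * a4) :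
    0 ≤ lgn a1 + n * (lgn a2 - lgn a3) + (lgn a4 - lgn a5) := by
  have h1' : (0 : ℝ) < a1 := by exact_mod_cast h1
  have h2' : (0 : ℝ) < a2 := by exact_mod_cast h2
  have h3' : (0 : ℝ) < a3 := by exact_mod_cast h3
  have h4' : (0 : ℝ) < a4 := by exact_mod_cast h4
  have h5' : (0 : ℝ) < a5 := by exact_mod_cast h5
  have h' : (a3 : ℝ) ^ n * a5 * 1000000 ≤ a1 * a2 ^ n * a4 := by exact_mod_cast h
  have := Real.log_le_log (by positivity) h'
  rw [Real.log_mul (by positivity) (by norm_num), Real.log_mul (by positivity) (by positivity),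
    Real.log_pow, Real.log_mul (by positivity) (by positivity),
    Real.log_mul (by positivity) (by positivity), Real.log_pow] at this
  unfold lgn
  nlinarith

/-- the same with two factors -/
theorem lg_ineq2 {a1 b1 a2 a3 n : ℕ} (h1 : 0 < a1) (h2 : 0 < a2) (h3 : 0 < a3) (h4 : 0 < b1)
    (h : a3 ^ n * (1000000 * 1000000) ≤ a1 * b1 * a2 ^ n) :
    0 ≤ lgn a1 + lgn b1 + n * (lgn a2 - lgn a3) := by
  have h1' : (0 : ℝ) < a1 := by exact_mod_cast h1
  have h2' : (0 : ℝ) < a2 := by exact_mod_cast h2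
  have h3' : (0 : ℝ) < a3 := by exact_mod_cast h3
  have h4' : (0 : ℝ) < b1 := by exact_mod_cast h4
  have h' : (a3 : ℝ) ^ n * (1000000 * 1000000) ≤ a1 * b1 * a2 ^ n := by exact_mod_cast h
  have := Real.log_le_log (by positivity) h'
  rw [Real.log_mul (by positivity) (by norm_num), Real.log_mul (by norm_num) (by norm_num),
    Real.log_pow, Real.log_mul (by positivity) (by positivity),
    Real.log_mul (by positivity) (by positivity), Real.log_pow] at this
  unfold lgn
  nlinarith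

theorem good : Good 6 ff qq bb where
  K2 := by norm_num
  fsymm := by
    intro k l
    have h : ∀ i ≤ 6, ∀ j ≤ 6, phT i j = phT j i := by decide +kernel
    unfold ff phN
    rw [h _ (min_le_right _ _) _ (min_le_right _ _)]
  fK := by
    intro l
    unfold ff phN
    norm_num
  fnn := by
    intro k l h1 h2 h3 h4
    have h : ∀ k ∈ Icc 2 7, ∀ l ∈ Icc 2 7, 1000000 ≤ phN k l := by decide +kernel
    exact lgn_nonneg (h k (mem_Icc.2 ⟨h1, h2⟩) l (mem_Icc.2 ⟨h3, h4⟩))
  f1K := lgn_nonneg (by decide +kernel)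
  leaf := by
    intro k h1 h2 y h3 h4 y' h5 h6
    have h : ∀ k ∈ Icc 2 6, ∀ y ∈ Icc 1 7, ∀ y' ∈ Icc 2 7,
        phN (k - 1) y ^ (k - 2) * phN (k - 1) y' * 1000000
          ≤ phN 1 k * phN k y ^ (k - 2) * phN k y' := by decide +kernel
    have := lg_ineq (phN_pos 1 k) (phN_pos k y) (phN_pos (k - 1) y) (phN_pos k y')
      (phN_pos (k - 1) y') (h k (mem_Icc.2 ⟨h1, h2⟩) y (mem_Icc.2 ⟨h3, h4⟩) y'
      (mem_Icc.2 ⟨h5, h6⟩))
    rw [Nat.cast_sub h1] at this
    exact_mod_cast this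
  leafv := by
    intro d hd k h1 h2 y h3 h4
    have h : ∀ d ∈ Icc 1 7, ∀ k ∈ Icc 3 6, ∀ y ∈ Icc 1 7,
        phN (k - 1) y ^ (k - 2) * psN d (k - 1) * 1000000
          ≤ phN 1 k * phN k y ^ (k - 2) * psN d k := by decide +kernel
    have hps : ∀ k, psN d k = psN (min d 7) k := fun k => by unfold psN; simp
    have := lg_ineq (phN_pos 1 k) (phN_pos k y) (phN_pos (k - 1) y) (psN_pos (min d 7) k)
      (psN_pos (min d 7) (k - 1)) (h (min d 7) (mem_Icc.2 ⟨by omega, min_le_right _ _⟩) k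
      (mem_Icc.2 ⟨h1, h2⟩) y (mem_Icc.2 ⟨h3, h4⟩))
    rw [← hps, ← hps, Nat.cast_sub (by omega)] at this
    exact_mod_cast this
  leafvK := by
    intro d hd
    have h : ∀ d ∈ Icc 1 7, 1 ^ 0 * psN d 6 * 1000000 ≤ phN 1 6 * 1 ^ 0 * psN d 7 := by
      decide +kernel
    have hps : ∀ k, psN d k = psN (min d 7) k := fun k => by unfold psN; simp
    have := lg_ineq (n := 0) (phN_pos 1 6) one_pos one_pos (psN_pos (min d 7) 7)
      (psN_pos (min d 7) 6) (h (min d 7) (mem_Icc.2 ⟨by omega, min_le_right _ _⟩))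
    rw [← hps, ← hps] at this
    unfold ff qq
    simpa using this
  leafv2 := by
    intro d hd y h3 h4
    rcases Nat.lt_or_ge d 8 with hd' | hd'
    · have h : ∀ d ∈ Icc 2 7, ∀ y ∈ Icc 2 7,
          psN (d - 1) y ^ (d - 1) * (1000000 * 1000000)
            ≤ phN 1 2 * psN d 2 * psN d y ^ (d - 1) := by decide +kernel
      have := lg_ineq2 (phN_pos 1 2) (psN_pos d y) (psN_pos (d - 1) y) (psN_pos d 2)
        (h d (mem_Icc.2 ⟨hd, by omega⟩) y (mem_Icc.2 ⟨h3, h4⟩))
      rw [Nat.cast_sub (by omega)] at this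
      exact_mod_cast this
    · have e1 : qq d y = qq (d - 1) y := by
        unfold qq psN
        rw [min_eq_right (by omega : 7 ≤ d), min_eq_right (by omega : 7 ≤ d - 1)]
      have e2 : qq d 2 = qq 7 2 := by
        unfold qq psN; rw [min_eq_right (by omega : 7 ≤ d), min_self]
      have h : 1 ^ 0 * (1000000 * 1000000) ≤ phN 1 2 * psN 7 2 * 1 ^ 0 := by decide +kernel
      have := lg_ineq2 (phN_pos 1 2) one_pos one_pos (psN_pos 7 2) h
      rw [e1, e2, sub_self, mul_zero, add_zero]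
      unfold ff qq
      simpa using this
  comp := by
    intro d hd k h1 h2 y h3 h4
    rcases Nat.lt_or_ge d 8 with hd' | hd'
    · have h : ∀ d ∈ Icc 2 7, ∀ k ∈ Icc 2 7, ∀ y ∈ Icc 2 7,
          psN (d - 1) y ^ (d - 1) * 1 * 1000000
            ≤ psN d k * psN d y ^ (d - 1) * 1 := by decide +kernel
      have := lg_ineq (psN_pos d k) (psN_pos d y) (psN_pos (d - 1) y) one_pos one_pos
        (h d (mem_Icc.2 ⟨hd, by omega⟩) k (mem_Icc.2 ⟨h1, h2⟩) y (mem_Icc.2 ⟨h3, h4⟩))
      rw [Nat.cast_sub (by omega), sub_self, add_zero] at this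
      exact_mod_cast this
    · have e1 : qq d y = qq (d - 1) y := by
        unfold qq psN
        rw [min_eq_right (by omega : 7 ≤ d), min_eq_right (by omega : 7 ≤ d - 1)]
      have e2 : qq d k = qq 7 k := by
        unfold qq psN; rw [min_eq_right (by omega : 7 ≤ d), min_self]
      have h : ∀ k ∈ Icc 2 7, 1000000 ≤ psN 7 k := by decide +kernel
      rw [e1, e2, sub_self, mul_zero, add_zero]
      exact lgn_nonneg (h k (mem_Icc.2 ⟨h1, h2⟩))
  tri := by
    intro d hd k h1 h2 l h3 h4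
    have h : ∀ d ∈ Icc 2 7, ∀ k ∈ Icc 2 6, ∀ l ∈ Icc 2 6,
        (1000000 * 1000000) * phN (k - 1) (l - 1) ≤ phN k l * bN d k l * bN d l k := by
      decide +kernel
    have hb : ∀ k l, bN d k l = bN (min d 7) k l := fun k l => by unfold bN; simp
    have h' := h (min d 7) (mem_Icc.2 ⟨by omega, min_le_right _ _⟩) k (mem_Icc.2 ⟨h1, h2⟩) l
      (mem_Icc.2 ⟨h3, h4⟩)
    rw [← hb, ← hb] at h'
    have h'' : (1000000 * 1000000 : ℝ) * phN (k - 1) (l - 1) ≤ phN k l * bN d k l * bN d l k := by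
      exact_mod_cast h'
    have p1 : (0 : ℝ) < phN (k - 1) (l - 1) := by exact_mod_cast phN_pos _ _
    have p2 : (0 : ℝ) < phN k l := by exact_mod_cast phN_pos _ _
    have p3 : (0 : ℝ) < bN d k l := by exact_mod_cast bN_pos _ _ _
    have p4 : (0 : ℝ) < bN d l k := by exact_mod_cast bN_pos _ _ _
    have := Real.log_le_log (by positivity) h''
    rw [Real.log_mul (by norm_num) (by positivity), Real.log_mul (by norm_num) (by norm_num),
      Real.log_mul (by positivity) (by positivity), Real.log_mul (by positivity) (by positivity)]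
      at this
    unfold ff bb lgn
    linarith

end Pool.Agent.H90Cyc
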